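import Pool.Agent.H90.PR.Rel

/-!
# Bases of number fields
-/

set_option autoImplicit false
set_option linter.unusedSectionVars false

open Finset

namespace Pool.Agent.H90.PR

/-- common denominators -/
lemma clear_den {κ : Type} [Fintype κ] [DecidableEq κ] (r : κ → ℚ) :
    ∃ q : ℕ, 1 ≤ q ∧ ∃ p : κ → ℤ, ∀ k, (q : ℝ) * (r k : ℝ) = p k := by
  refine ⟨∏ k, (r k).den, Nat.one_le_iff_ne_zero.2 (prod_ne_zero_iff.2 fun k _ => (r k).den_nz),
    fun k => (r k).num * ((∏ j ∈ univ.erase k, (r j).den : ℕ) : ℤ), fun k => ?_⟩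
  rw [← mul_prod_erase univ _ (mem_univ k)]
  have h1 : ((r k : ℚ) : ℝ) * ((r k).den : ℝ) = (r k).num := by
    exact_mod_cast Rat.mul_den_eq_num (r k)
  push_cast
  rw [← h1]
  ring

section
variable {n : ℕ} (K : IntermediateField ℚ ℝ) (α : Fin n → ℝ)

lemma span_eq (hK : Module.finrank ℚ K = n + 1) (hα : ∀ i, α i ∈ K)
    (hind : LinearIndependent ℚ (Fin.cons (1 : ℝ) α : Fin (n + 1) → ℝ)) (z : ℝ) (hz : z ∈ K) :
    ∃ r : Fin (n + 1) → ℚ, z = (r 0 : ℝ) + ∑ i : Fin n, (r i.succ : ℝ) * α i := by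
  have hfin : FiniteDimensional ℚ K := by
    apply Module.finite_of_finrank_pos
    omega
  set f : Fin (n + 1) → ℝ := Fin.cons (1 : ℝ) α with hf
  have hmem : ∀ i, f i ∈ K := by
    intro i
    refine Fin.cases ?_ (fun j => ?_) i
    · rw [hf, Fin.cons_zero]; exact K.one_mem
    · rw [hf, Fin.cons_succ]; exact hα j
  set g : Fin (n + 1) → K := fun i => ⟨f i, hmem i⟩ with hg
  have hgi : LinearIndependent ℚ g := by
    have h1 : LinearIndependent ℚ (fun i => (K.val.toLinearMap) (g i)) := hind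
    exact LinearIndependent.of_comp K.val.toLinearMap h1
  have hspan : Submodule.span ℚ (Set.range g) = ⊤ := by
    apply hgi.span_eq_top_of_card_eq_finrank'
    rw [Fintype.card_fin, hK]
  have h1 : (⟨z, hz⟩ : K) ∈ Submodule.span ℚ (Set.range g) := by rw [hspan]; trivial
  obtain ⟨r, hr⟩ := (Submodule.mem_span_range_iff_exists_fun ℚ).1 h1
  refine ⟨r, ?_⟩
  have h2 := congrArg (fun u : K => (u : ℝ)) hr
  simp only at h2
  rw [← h2]
  push_cast
  rw [Fin.sum_univ_succ]
  have e : ∀ i, (g i : ℝ) = f i := fun i => rfl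
  simp only [Rat.smul_def, e, hf, Fin.cons_zero, Fin.cons_succ, mul_one]

lemma irr_of_ind (hind : LinearIndependent ℚ (Fin.cons (1 : ℝ) α : Fin (n + 1) → ℝ)) (i : Fin n) :
    Irrational (α i) := by
  rintro ⟨q, hq⟩
  have h1 := (Fintype.linearIndependent_iff.1 hind)
    (Fin.cons (-q) (fun j => if j = i then (1 : ℚ) else 0) : Fin (n + 1) → ℚ) (by
    rw [Fin.sum_univ_succ]
    simp only [Fin.cons_zero, Fin.cons_succ]
    rw [sum_eq_single_of_mem i (mem_univ i) (fun j _ hj => by rw [if_neg hj, zero_smul]), if_pos rfl,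
      one_smul, ← hq, Rat.smul_def]
    push_cast
    ring) i.succ
  rw [Fin.cons_succ, if_pos rfl] at h1
  exact one_ne_zero h1

lemma alg_of_mem (hK : Module.finrank ℚ K = n + 1) (z : ℝ) (hz : z ∈ K) : IsAlgebraic ℚ z := by
  have hfin : FiniteDimensional ℚ K := by
    apply Module.finite_of_finrank_pos
    omega
  have h1 : Algebra.IsAlgebraic ℚ K := Algebra.IsAlgebraic.of_finite ℚ K
  have h2 := h1.isAlgebraic (⟨z, hz⟩ : K)
  exact (isAlgebraic_algebraMap_iff (algebraMap K ℝ).injective).2 h2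

/-- the relation for the product of the elements of a basis -/
theorem basis_rel (hn : 2 ≤ n) (hK : Module.finrank ℚ K = n + 1) (hα : ∀ i, α i ∈ K)
    (hind : LinearIndependent ℚ (Fin.cons (1 : ℝ) α : Fin (n + 1) → ℝ)) :
    ∃ q : ℕ, 1 ≤ q ∧ Rel q α := by
  obtain ⟨r, hr⟩ := span_eq K α hK hα hind (∏ i, α i) (K.prod_mem fun i _ => hα i)
  obtain ⟨q, hq, p, hp⟩ := clear_den r
  refine ⟨q, hq, fun I => if I = ∅ then p 0 else ∑ i : Fin n, if I = {i} then p i.succ else 0, ?_⟩
  rw [hr, mul_add, mul_sum, hp 0]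
  have hne : ∀ i : Fin n, ({i} : Finset (Fin n)) ≠ univ := by
    intro i h
    have h1 := congrArg Finset.card h
    rw [card_singleton, card_univ, Fintype.card_fin] at h1
    omega
  have hne0 : (∅ : Finset (Fin n)) ≠ univ := by
    intro h
    have h1 := congrArg Finset.card h
    rw [card_empty, card_univ, Fintype.card_fin] at h1
    omega
  have h0 : (∅ : Finset (Fin n)) ∈ univ.erase (univ : Finset (Fin n)) :=
    mem_erase.2 ⟨hne0, mem_univ _⟩
  rw [← add_sum_erase _ _ h0]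
  simp only [if_true, prod_empty, mul_one]
  congr 1
  have h1 : ∀ I ∈ (univ.erase (univ : Finset (Fin n))).erase ∅,
      ((if I = ∅ then p 0 else ∑ i : Fin n, if I = {i} then p i.succ else 0 : ℤ) : ℝ) *
        ∏ i ∈ I, α i = ∑ i : Fin n, if I = {i} then (p i.succ : ℝ) * α i else 0 := by
    intro I hI
    rw [if_neg (ne_of_mem_erase hI)]
    push_cast
    rw [sum_mul]
    refine sum_congr rfl fun i _ => ?_
    split_ifs with h
    · rw [h, prod_singleton]
    · rw [zero_mul]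
  rw [sum_congr rfl h1, sum_comm]
  refine sum_congr rfl fun i _ => ?_
  have h2 : ({i} : Finset (Fin n)) ∈ (univ.erase (univ : Finset (Fin n))).erase ∅ :=
    mem_erase.2 ⟨singleton_ne_empty i, mem_erase.2 ⟨hne i, mem_univ _⟩⟩
  rw [sum_eq_single_of_mem _ h2 (fun I _ hI => by rw [if_neg hI])]
  simp only [if_true]
  rw [← hp i.succ]
  ring

end

end Pool.Agent.H90.PR
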