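import Pool.Agent.H90.PR.Core

/-!
# Products of the numbers of nonzero digits, for numbers in `(0, 1)`
-/

set_option autoImplicit false
set_option linter.unusedSectionVars false

open Finset

namespace Pool.Agent.H90.PR

open Pool.Agent.H394R2.Ones Pool.Agent.H820R3.DG Pool.Agent.Helper161SP

open PowerSeries (coeff)

/-- number of nonzero digits at the places `1, …, n` -/
noncomputable def cnt (b : ℕ) (y : ℝ) (n : ℕ) : ℕ :=
  ((range n).filter (fun j => x b y (j + 1) ≠ 0)).card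

lemma cnt_mono (b : ℕ) (y : ℝ) {m n : ℕ} (h : m ≤ n) : cnt b y m ≤ cnt b y n :=
  card_le_card (filter_subset_filter _ (range_mono h))

/-- the indicator of the nonzero digits of `1 + y` -/
noncomputable def Ey (b : ℕ) (y : ℝ) : PowerSeries ℕ :=
  PowerSeries.mk fun i => if xx b y i = 0 then 0 else 1

section
variable {b : ℕ}

lemma SF_Ey (y : ℝ) (n : ℕ) : SF (Ey b y) n = cnt b y n + 1 := by
  rw [SF_eq, sum_range_succ']
  unfold Ey cnt
  rw [PowerSeries.coeff_mk, xx_zero, if_neg one_ne_zero, card_filter]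
  congr 1
  refine sum_congr rfl fun i _ => ?_
  rw [PowerSeries.coeff_mk, xx_succ]
  by_cases h : x b y (i + 1) = 0
  · rw [if_pos h, if_neg (not_not.2 h)]
  · rw [if_neg h, if_pos h]

lemma xx_le_Ey (hb : 2 ≤ b) (y : ℝ) (i : ℕ) : xx b y i ≤ (b - 1) * coeff i (Ey b y) := by
  unfold Ey
  rw [PowerSeries.coeff_mk]
  split_ifs with h
  · rw [h]; omega
  · rcases Nat.eq_zero_or_pos i with h0 | h0
    · subst h0
      rw [xx_zero]
      omega
    · obtain ⟨k, rfl⟩ : ∃ k, i = k + 1 := ⟨i - 1, by omega⟩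
      rw [xx_succ, mul_one]
      unfold Pool.Agent.H394R2.Ones.x
      have := Nat.mod_lt (B b y (k + 1)) (show 0 < b by omega)
      omega

lemma KK_le_cnt1 (hb : 2 ≤ b) (y : ℝ) (n : ℕ) : KK b y n ≤ (b - 1) * (cnt b y n + 1) := by
  rw [← SF_Ey, SF_eq, mul_sum]
  unfold KK
  exact sum_le_sum fun i _ => xx_le_Ey hb y i

variable {ι : Type} [Fintype ι] [DecidableEq ι]

lemma coeff_FI_le (hb : 2 ≤ b) (y : ι → ℝ) (I : Finset ι) (m : ℕ) :
    coeff m (FI b y I) ≤ (b - 1) ^ I.card * coeff m (∏ i ∈ I, Ey b (y i)) := by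
  induction I using Finset.induction_on generalizing m with
  | empty => unfold FI; simp
  | insert a I ha ih =>
    have h1 : FI b y (insert a I) = Fy b (y a) * FI b y I := by
      unfold FI; exact prod_insert ha
    rw [h1, prod_insert ha, card_insert_of_notMem ha, PowerSeries.coeff_mul,
      PowerSeries.coeff_mul, mul_sum]
    refine sum_le_sum fun p _ => ?_
    have h2 : coeff p.1 (Fy b (y a)) ≤ (b - 1) * coeff p.1 (Ey b (y a)) := by
      rw [Fy, PowerSeries.coeff_mk]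
      exact xx_le_Ey hb _ _
    calc coeff p.1 (Fy b (y a)) * coeff p.2 (FI b y I) ≤
        ((b - 1) * coeff p.1 (Ey b (y a))) * ((b - 1) ^ I.card * coeff p.2 (∏ i ∈ I, Ey b (y i))) :=
          Nat.mul_le_mul h2 (ih p.2)
      _ = _ := by rw [pow_succ]; ring

lemma SF_prod (F : ι → PowerSeries ℕ) (I : Finset ι) (n : ℕ) :
    SF (∏ i ∈ I, F i) n ≤ ∏ i ∈ I, SF (F i) n := by
  induction I using Finset.induction_on with
  | empty =>
    rw [prod_empty, prod_empty, SF, one_mul, EE, PowerSeries.coeff_mk, one_pow]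
  | insert a I ha ih =>
    rw [prod_insert ha, prod_insert ha]
    exact (SF_mul _ _ _).trans (Nat.mul_le_mul_left _ ih)

/-- the counts tend to infinity -/
lemma cnt_large (hb : 2 ≤ b) {y0 : ℝ} (hy00 : 0 < y0) (hy01 : y0 < 1)
    (halg : IsAlgebraic ℚ y0) (hirr : Irrational y0) (M : ℝ) :
    ∃ n0 : ℕ, ∀ n : ℕ, n0 ≤ n → M ≤ cnt b y0 n := by
  have hb2 : (2 : ℝ) ≤ b := by exact_mod_cast hb
  set κ : ℝ := 1 / (((b : ℝ) - 1) * (|M| + 1)) with hκ
  have hM := abs_nonneg M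
  have hκ0 : 0 < κ := by
    rw [hκ]
    have : 0 < (b : ℝ) - 1 := by linarith
    positivity
  obtain ⟨n0, h0⟩ := KK_log hb hy00 hy01 halg hirr κ hκ0
  refine ⟨n0, fun n hn => ?_⟩
  have h1 := h0 n hn
  have h2 : (KK b y0 n : ℝ) ≤ ((b : ℝ) - 1) * (cnt b y0 n + 1) := by
    have h3 := KK_le_cnt1 hb y0 n
    have h4 : ((KK b y0 n : ℕ) : ℝ) ≤ (((b - 1) * (cnt b y0 n + 1) : ℕ) : ℝ) := by
      exact_mod_cast h3
    rw [Nat.cast_mul, Nat.cast_sub (by omega)] at h4
    push_cast at h4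
    exact h4
  have h3 : 0 ≤ Real.log ((n : ℝ) + 1) := Real.log_nonneg (by
    have : (0 : ℝ) ≤ n := Nat.cast_nonneg _
    linarith)
  have h4 : 1 ≤ κ * (((b : ℝ) - 1) * (cnt b y0 n + 1)) := by
    have := mul_le_mul_of_nonneg_left h2 hκ0.le
    linarith
  have hb1 : (b : ℝ) - 1 ≠ 0 := by linarith
  have h5 : κ * (((b : ℝ) - 1) * (cnt b y0 n + 1)) = (cnt b y0 n + 1) / (|M| + 1) := by
    rw [hκ]
    field_simp
  rw [h5, le_div_iff₀ (by positivity)] at h4
  have := le_abs_self M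
  linarith

/-- the theorem for numbers in `(0, 1)` -/
theorem prodY (hb : 2 ≤ b) (hcard : 2 ≤ Fintype.card ι) (y : ι → ℝ) (hy0 : ∀ i, 0 < y i)
    (hy1 : ∀ i, y i < 1) (halg : ∀ i, IsAlgebraic ℚ (y i)) (hirr : ∀ i, Irrational (y i))
    (q : ℕ) (hq : 1 ≤ q) (p : Finset ι → ℤ)
    (hrel : (q : ℝ) * ∏ i, (1 + y i) =
      ∑ I ∈ univ.erase (univ : Finset ι), (p I : ℝ) * ∏ i ∈ I, (1 + y i))
    (L : ℕ) (hL1 : 1 ≤ L) (hL : q * (b - 1) ^ (Fintype.card ι - 1) < b ^ L)
    {ε : ℝ} (hε : 0 < ε) :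
    ∃ n0 : ℕ, ∀ n : ℕ, n0 ≤ n → (1 - ε) * n ≤ L * ∏ i, (cnt b (y i) n : ℝ) := by
  classical
  have hb2 : (2 : ℝ) ≤ b := by exact_mod_cast hb
  have hb1 : 0 < (b : ℝ) - 1 := by linarith
  set D := Fintype.card ι with hD
  have hqR : (1 : ℝ) ≤ q := by exact_mod_cast hq
  -- the parameters of the potential
  set w : ℝ := q * ((b : ℝ) - 1) ^ D with hw
  have hw0 : 0 < w := by positivity
  have hbL : (2 : ℝ) ≤ (b : ℝ) ^ L := by
    calc (2 : ℝ) ≤ b := hb2
      _ = (b : ℝ) ^ 1 := (pow_one _).symm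
      _ ≤ (b : ℝ) ^ L := pow_le_pow_right₀ (by linarith) hL1
  set η : ℝ := 1 / (b : ℝ) ^ L with hη
  have hη0 : 0 < η := by positivity
  have hη2 : η ≤ 1 / 2 := one_div_le_one_div_of_le (by norm_num) hbL
  have hwD : w / ((b : ℝ) - 1) = q * ((b : ℝ) - 1) ^ (D - 1) := by
    obtain ⟨d, hd⟩ : ∃ d, D = d + 1 := ⟨D - 1, by omega⟩
    rw [hw, hd, pow_succ, Nat.add_sub_cancel]
    field_simp
  have hw1 : (1 : ℝ) ≤ w / ((b : ℝ) - 1) := by
    rw [hwD]
    exact one_le_mul_of_one_le_of_one_le hqR (one_le_pow₀ (by linarith))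
  have hwL : w ≤ ((b : ℝ) - 1) * ((b : ℝ) ^ L * (1 - η)) := by
    have h1 : q * (b - 1) ^ (D - 1) + 1 ≤ b ^ L := hL
    have h2 : (((q * (b - 1) ^ (D - 1) + 1 : ℕ)) : ℝ) ≤ ((b ^ L : ℕ) : ℝ) := by exact_mod_cast h1
    rw [Nat.cast_add, Nat.cast_mul, Nat.cast_pow, Nat.cast_sub (by omega)] at h2
    push_cast at h2
    have h3 : (b : ℝ) ^ L * (1 - η) = (b : ℝ) ^ L - 1 := by
      rw [hη]; field_simp
    rw [h3]
    have h4 : w = ((b : ℝ) - 1) * (w / ((b : ℝ) - 1)) := by field_simp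
    rw [h4, hwD]
    exact mul_le_mul_of_nonneg_left (by linarith) hb1.le
  -- the cost
  set k : ℕ → ℕ := fun m => coeff m (∏ i, Ey b (y i)) with hk
  have hstep : ∀ m, (b : ℝ) * (q * TF b y m) - w * k (m + 1) ≤ q * TF b y (m + 1) := by
    intro m
    rw [TF_succ]
    have h1 := coeff_FI_le hb y univ (m + 1)
    have h2 : ((coeff (m + 1) (FI b y univ) : ℕ) : ℝ) ≤ ((b : ℝ) - 1) ^ D * k (m + 1) := by
      have h3 : ((coeff (m + 1) (FI b y univ) : ℕ) : ℝ) ≤
          (((b - 1) ^ (univ : Finset ι).card * coeff (m + 1) (∏ i, Ey b (y i)) : ℕ) : ℝ) := by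
        exact_mod_cast h1
      rw [Nat.cast_mul, Nat.cast_pow, Nat.cast_sub (by omega), card_univ, ← hD] at h3
      push_cast at h3
      exact h3
    have h3 := mul_le_mul_of_nonneg_left h2 (by linarith : (0 : ℝ) ≤ q)
    rw [hw]
    linarith
  have hL0 : (1 : ℝ) ≤ L := by exact_mod_cast hL1
  -- large counts
  have hlarge : ∀ i, ∃ n0 : ℕ, ∀ n : ℕ, n0 ≤ n → (4 * D / ε : ℝ) ≤ cnt b (y i) n := fun i =>
    cnt_large hb (hy0 i) (hy1 i) (halg i) (hirr i) _
  choose N1 hN1 using hlarge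
  set δ : ℝ := ε / 8 with hδ
  have hδ0 : 0 < δ := by positivity
  obtain ⟨n0, hcore⟩ := core hb hcard y hy0 hy1 halg hirr q hq p hrel hη0 (by linarith)
    (C0 := ((b : ℝ) - 1) ^ D * 2 ^ D) (by positivity) hδ0
  obtain ⟨n2, hn2⟩ := exists_nat_ge (8 * L / ε)
  refine ⟨max (max n0 n2) (univ.sup N1), fun n hn => ?_⟩
  have hnn0 : n0 ≤ n := (le_max_left _ _).trans ((le_max_left _ _).trans hn)
  have hnn2 : n2 ≤ n := (le_max_right _ _).trans ((le_max_left _ _).trans hn)
  have hnn1 : ∀ i, N1 i ≤ n := fun i =>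
    (le_sup (mem_univ i)).trans ((le_max_right _ _).trans hn)
  have hnR : (0 : ℝ) ≤ n := Nat.cast_nonneg _
  by_contra hcon
  push Not at hcon
  have hDpos : (0 : ℝ) < D := by exact_mod_cast (by omega : 0 < D)
  rcases le_or_gt 1 ε with hε1 | hε1
  · have h1 : (1 - ε) * n ≤ 0 := mul_nonpos_of_nonpos_of_nonneg (by linarith) hnR
    have h2 : 0 ≤ (L : ℝ) * ∏ i, (cnt b (y i) n : ℝ) := by positivity
    linarith
  have hcl : ∀ i, (4 * D / ε : ℝ) ≤ cnt b (y i) n := fun i => hN1 i n (hnn1 i)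
  have h4D : (4 : ℝ) ≤ 4 * D / ε := by
    rw [le_div_iff₀ hε]
    have : (1 : ℝ) ≤ D := by exact_mod_cast (by omega : 1 ≤ D)
    nlinarith
  set P : ℝ := ∏ i, (cnt b (y i) n : ℝ) with hP
  have hP0 : 0 ≤ P := prod_nonneg fun _ _ => Nat.cast_nonneg _
  have hPn : P ≤ n := by
    have h1 : (1 : ℝ) * P ≤ L * P := mul_le_mul_of_nonneg_right hL0 hP0
    nlinarith
  -- the product of the digit sums
  have hprod : ((∏ i, KK b (y i) n : ℕ) : ℝ) ≤ (((b : ℝ) - 1) ^ D * 2 ^ D) * n := by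
    push_cast
    calc ∏ i, (KK b (y i) n : ℝ) ≤ ∏ i, ((((b : ℝ) - 1) * 2) * (cnt b (y i) n : ℝ)) := by
          refine prod_le_prod (fun _ _ => Nat.cast_nonneg _) fun i _ => ?_
          have h3 := KK_le_cnt1 hb (y i) n
          have h4 : ((KK b (y i) n : ℕ) : ℝ) ≤ (((b - 1) * (cnt b (y i) n + 1) : ℕ) : ℝ) := by
            exact_mod_cast h3
          rw [Nat.cast_mul, Nat.cast_sub (by omega)] at h4
          push_cast at h4
          have h5 := hcl i
          nlinarith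
      _ = (((b : ℝ) - 1) * 2) ^ D * P := by rw [prod_mul_distrib, prod_const, card_univ]
      _ ≤ (((b : ℝ) - 1) * 2) ^ D * n := mul_le_mul_of_nonneg_left hPn (by positivity)
      _ = _ := by rw [mul_pow]
  obtain ⟨hbad, hT⟩ := hcore n hnn0 hprod
  -- the potential
  have hpot := pot_sum (b := (b : ℝ)) (θ := 1 - η) (w := w) (L := L) hb2 (by linarith) hw0
    (by linarith) hL1 hwL (T := fun m => q * TF b y m) (k := k) hstep n
  have hsumk : ∑ m ∈ range n, k (m + 1) ≤ ∏ i, (cnt b (y i) n + 1) := by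
    calc ∑ m ∈ range n, k (m + 1) ≤ ∑ m ∈ range (n + 1), k m := by
          rw [sum_range_succ']; exact Nat.le_add_right _ _
      _ = SF (∏ i, Ey b (y i)) n := (SF_eq _ _).symm
      _ ≤ ∏ i, SF (Ey b (y i)) n := SF_prod _ _ _
      _ = _ := prod_congr rfl fun i _ => SF_Ey _ _
  have hsumk' : ((∑ m ∈ range n, k (m + 1) : ℕ) : ℝ) ≤ (1 + ε / 2) * P := by
    have h1 : ((∑ m ∈ range n, k (m + 1) : ℕ) : ℝ) ≤ ∏ i, ((cnt b (y i) n : ℝ) + 1) := by
      exact_mod_cast hsumk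
    refine h1.trans ?_
    calc ∏ i, ((cnt b (y i) n : ℝ) + 1) ≤ ∏ i, ((1 + ε / (4 * D)) * (cnt b (y i) n : ℝ)) := by
          refine prod_le_prod (fun _ _ => by positivity) fun i _ => ?_
          have h2 := hcl i
          rw [div_le_iff₀ hε] at h2
          have h3 : 1 ≤ ε / (4 * D) * (cnt b (y i) n : ℝ) := by
            rw [div_mul_eq_mul_div, le_div_iff₀ (by positivity)]
            linarith
          linarith
      _ = (1 + ε / (4 * D)) ^ D * P := by rw [prod_mul_distrib, prod_const, card_univ]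
      _ ≤ (1 + ε / 2) * P := by
          refine mul_le_mul_of_nonneg_right ?_ hP0
          calc (1 + ε / (4 * D)) ^ D ≤ (Real.exp (ε / (4 * D))) ^ D := by
                refine pow_le_pow_left₀ (by positivity) ?_ _
                have := Real.add_one_le_exp (ε / (4 * (D : ℝ)))
                linarith
            _ = Real.exp (ε / 4) := by
                rw [← Real.exp_nat_mul]
                congr 1
                field_simp
            _ ≤ 1 + ε / 2 := by
                have h2 := Real.exp_bound_div_one_sub_of_interval (x := ε / 4) (by positivity)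
                  (by linarith)
                refine h2.trans ?_
                rw [div_le_iff₀ (by linarith)]
                nlinarith
  have hH := HH_le (b := (b : ℝ)) (θ := 1 - η) (w := w) (L := L) hb2 hw0
    (T := q * TF b y n) (mul_nonneg (by linarith) (TF_nonneg hb y hy0 hy1 n))
  have hHT : q * TF b y n / w ≤ δ * n := by
    have h1 : q * TF b y n / w ≤ TF b y n := by
      rw [div_le_iff₀ hw0, hw]
      have h2 : (1 : ℝ) ≤ ((b : ℝ) - 1) ^ D := one_le_pow₀ (by linarith)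
      have h3 := TF_nonneg hb y hy0 hy1 n
      have h4 : (q : ℝ) * TF b y n * 1 ≤ q * TF b y n * ((b : ℝ) - 1) ^ D :=
        mul_le_mul_of_nonneg_left h2 (by positivity)
      linarith
    exact h1.trans hT
  have hbad' : (((range n).filter (fun m => (q : ℝ) * TF b y m < 1 - η)).card : ℝ) ≤ δ * n := by
    refine le_trans ?_ hbad
    have : (range n).filter (fun m => (q : ℝ) * TF b y m < 1 - η) ⊆
        (range n).filter (fun m => η ≤ |UF b y p m| ∨ (q : ℝ) * TF b y m < 1 - η) :=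
      monotone_filter_right _ fun m _ hm => Or.inr hm
    exact_mod_cast card_le_card this
  have hpotR : (n : ℝ) ≤ L * ((∑ m ∈ range n, k (m + 1) : ℕ) : ℝ) +
      HH (b : ℝ) (1 - η) w L (q * TF b y n) +
      (((range n).filter (fun m => (q : ℝ) * TF b y m < 1 - η)).card : ℝ) := by
    exact_mod_cast hpot
  have h8L : (L : ℝ) ≤ δ * n := by
    have h1 : 8 * L / ε ≤ n := hn2.trans (by exact_mod_cast hnn2)
    rw [div_le_iff₀ hε] at h1
    rw [hδ]
    linarith
  have h9 : (n : ℝ) ≤ L * ((1 + ε / 2) * P) + 3 * (δ * n) := by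
    have := mul_le_mul_of_nonneg_left hsumk' (by linarith : (0 : ℝ) ≤ L)
    linarith
  have h10 : L * ((1 + ε / 2) * P) < (1 + ε / 2) * ((1 - ε) * n) := by
    have : L * ((1 + ε / 2) * P) = (1 + ε / 2) * (L * P) := by ring
    rw [this]
    exact mul_lt_mul_of_pos_left hcon (by linarith)
  have h11 : 3 * (δ * n) = 3 / 8 * ε * n := by rw [hδ]; ring
  rw [h11] at h9
  nlinarith [mul_nonneg hε.le hnR, mul_nonneg (mul_nonneg hε.le hε.le) hnR]

end

end Pool.Agent.H90.PR
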