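import Mathlib

/-!
# Relations between products of numbers
-/

set_option autoImplicit false
set_option linter.unusedSectionVars false

open Finset

namespace Pool.Agent.H90.PR

section
variable {ι : Type} [Fintype ι] [DecidableEq ι]

/-- `q` times the product of all numbers is a sum of integral multiples of products of fewer
numbers -/
def Rel (q : ℕ) (x : ι → ℝ) : Prop :=
  ∃ p : Finset ι → ℤ, (q : ℝ) * ∏ i, x i =
    ∑ I ∈ univ.erase (univ : Finset ι), (p I : ℝ) * ∏ i ∈ I, x i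

lemma Rel.scale {q : ℕ} {x : ι → ℝ} (h : Rel q x) (m : ι → ℤ) :
    Rel q (fun i => (m i : ℝ) * x i) := by
  obtain ⟨p, hp⟩ := h
  refine ⟨fun I => p I * ∏ i ∈ univ \ I, m i, ?_⟩
  calc (q : ℝ) * ∏ i, ((m i : ℝ) * x i) = (∏ i, (m i : ℝ)) * (q * ∏ i, x i) := by
        rw [prod_mul_distrib]; ring
    _ = ∑ I ∈ univ.erase (univ : Finset ι), (∏ i, (m i : ℝ)) * ((p I : ℝ) * ∏ i ∈ I, x i) := by
        rw [hp, mul_sum]
    _ = _ := by
        refine sum_congr rfl fun I _ => ?_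
        have h1 : ∏ i, (m i : ℝ) = (∏ i ∈ univ \ I, (m i : ℝ)) * ∏ i ∈ I, (m i : ℝ) :=
          (prod_sdiff (subset_univ I)).symm
        rw [h1, prod_mul_distrib]
        push_cast
        ring

lemma Rel.affine {q : ℕ} {x z : ι → ℝ} (h : Rel q x) (σ β : ι → ℤ)
    (hσ : ∀ i, σ i = 1 ∨ σ i = -1) (hx : ∀ i, x i = σ i * z i + β i) : Rel q z := by
  obtain ⟨p, hp⟩ := h
  set f : {I : Finset ι // I ≠ univ} → ℝ := fun I => ∏ i ∈ I.1, z i with hf
  set S := Submodule.span ℤ (Set.range f) with hS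
  have hmem : ∀ J : Finset ι, J ≠ univ → ∀ c : ℤ, (c : ℝ) * ∏ i ∈ J, z i ∈ S := by
    intro J hJ c
    rw [← zsmul_eq_mul]
    exact Submodule.smul_mem _ _ (Submodule.subset_span ⟨⟨J, hJ⟩, rfl⟩)
  have hexp : ∀ I : Finset ι, ∏ i ∈ I, x i =
      ∑ J ∈ I.powerset, (((∏ i ∈ J, σ i) * ∏ i ∈ I \ J, β i : ℤ) : ℝ) * ∏ i ∈ J, z i := by
    intro I
    calc ∏ i ∈ I, x i = ∏ i ∈ I, ((σ i : ℝ) * z i + β i) := prod_congr rfl fun i _ => hx i
      _ = ∑ J ∈ I.powerset, (∏ i ∈ J, ((σ i : ℝ) * z i)) * ∏ i ∈ I \ J, (β i : ℝ) := prod_add _ _ _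
      _ = _ := by
        refine sum_congr rfl fun J _ => ?_
        rw [prod_mul_distrib]
        push_cast
        ring
  have h1 : ∀ I : Finset ι, I ≠ univ → ∏ i ∈ I, x i ∈ S := by
    intro I hI
    rw [hexp I]
    refine Submodule.sum_mem _ fun J hJ => hmem J ?_ _
    intro hJu
    rw [mem_powerset, hJu] at hJ
    exact hI (univ_subset_iff.1 hJ)
  have h2 : ∏ i, x i - ((∏ i, σ i : ℤ) : ℝ) * ∏ i, z i ∈ S := by
    have e : ∏ i, x i = (((∏ i, σ i) * ∏ i ∈ univ \ univ, β i : ℤ) : ℝ) * ∏ i, z i +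
        ∑ J ∈ (univ : Finset ι).powerset.erase univ,
          (((∏ i ∈ J, σ i) * ∏ i ∈ univ \ J, β i : ℤ) : ℝ) * ∏ i ∈ J, z i := by
      rw [hexp univ, ← add_sum_erase _ _ (mem_powerset.2 (subset_univ (univ : Finset ι)))]
    rw [e, sdiff_self, bot_eq_empty, prod_empty, mul_one, add_sub_cancel_left]
    refine Submodule.sum_mem _ fun J hJ => hmem J (ne_of_mem_erase hJ) _
  have h3 : (q : ℝ) * ∏ i, x i ∈ S := by
    rw [hp]
    refine Submodule.sum_mem _ fun I hI => ?_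
    rw [← zsmul_eq_mul]
    exact Submodule.smul_mem _ _ (h1 I (ne_of_mem_erase hI))
  have h4 : (q : ℝ) * (((∏ i, σ i : ℤ) : ℝ) * ∏ i, z i) ∈ S := by
    have h5 : (q : ℝ) * (((∏ i, σ i : ℤ) : ℝ) * ∏ i, z i) = (q : ℝ) * ∏ i, x i -
        ((q : ℤ) : ℝ) * (∏ i, x i - ((∏ i, σ i : ℤ) : ℝ) * ∏ i, z i) := by
      push_cast; ring
    rw [h5]
    refine Submodule.sub_mem _ h3 ?_
    rw [← zsmul_eq_mul]
    exact Submodule.smul_mem _ _ h2
  have hsq : ((∏ i, σ i : ℤ) : ℝ) * ((∏ i, σ i : ℤ) : ℝ) = 1 := by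
    rw [← Int.cast_mul, ← prod_mul_distrib]
    have : ∏ i, σ i * σ i = 1 := prod_eq_one fun i _ => by
      rcases hσ i with h | h <;> rw [h] <;> norm_num
    rw [this, Int.cast_one]
  have h5 : (q : ℝ) * ∏ i, z i ∈ S := by
    have h6 : (q : ℝ) * ∏ i, z i = ((∏ i, σ i : ℤ) : ℝ) *
        ((q : ℝ) * (((∏ i, σ i : ℤ) : ℝ) * ∏ i, z i)) := by
      calc (q : ℝ) * ∏ i, z i = (((∏ i, σ i : ℤ) : ℝ) * ((∏ i, σ i : ℤ) : ℝ)) *
            ((q : ℝ) * ∏ i, z i) := by rw [hsq, one_mul]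
        _ = _ := by ring
    rw [h6, ← zsmul_eq_mul]
    exact Submodule.smul_mem _ _ h4
  obtain ⟨c, hc⟩ := (Submodule.mem_span_range_iff_exists_fun ℤ).1 h5
  refine ⟨fun I => if hI : I ≠ univ then c ⟨I, hI⟩ else 0, ?_⟩
  rw [← hc]
  have h6 : univ.erase (univ : Finset ι) = univ.filter (fun I : Finset ι => I ≠ univ) := by
    ext I; simp
  rw [h6, ← sum_subtype_eq_sum_filter, subtype_univ]
  refine sum_congr rfl fun I _ => ?_
  have h7 : (fun I : Finset ι => if hI : I ≠ univ then c ⟨I, hI⟩ else 0) I.1 = c I := by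
    simp only
    rw [dif_pos I.2]
  rw [h7, zsmul_eq_mul]

end

end Pool.Agent.H90.PR
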