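import Pool.Agent.H90.PR.Prod
import Pool.Agent.H90.PR.Rel

/-!
# Windows of consecutive digits
-/

set_option autoImplicit false
set_option linter.unusedSectionVars false

open Finset

namespace Pool.Agent.H90.PR

open Pool.Agent.H394R2.Ones

/-- the digit at the place `k` -/
noncomputable def dgt (b : ℕ) (ξ : ℝ) (k : ℕ) : ℤ := ⌊ξ * (b : ℝ) ^ k⌋ % (b : ℤ)

lemma emod_pow_eq_zero (b : ℕ) (hb : 1 ≤ b) (N : ℤ) (t : ℕ) :
    N % ((b : ℤ) ^ t) = 0 ↔ ∀ i < t, (N / (b : ℤ) ^ i) % b = 0 := by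
  have hb0 : (b : ℤ) ≠ 0 := by exact_mod_cast (by omega : b ≠ 0)
  induction t generalizing N with
  | zero => simp
  | succ t ih =>
    constructor
    · intro h i hi
      obtain ⟨c, hc⟩ := Int.dvd_of_emod_eq_zero h
      apply Int.emod_eq_zero_of_dvd
      have h1 : (b : ℤ) ^ (t + 1) = (b : ℤ) ^ i * (b * (b : ℤ) ^ (t - i)) := by
        rw [← pow_succ', ← pow_add]
        congr 1
        omega
      rw [hc, h1, mul_assoc, Int.mul_ediv_cancel_left _ (pow_ne_zero _ hb0)]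
      exact ⟨(b : ℤ) ^ (t - i) * c, by ring⟩
    · intro h
      have h0 := h 0 (by omega)
      rw [pow_zero, Int.ediv_one] at h0
      obtain ⟨c, hc⟩ := Int.dvd_of_emod_eq_zero h0
      have h1 : c % (b : ℤ) ^ t = 0 := by
        refine (ih c).2 ?_
        intro i hi
        have h2 := h (i + 1) (by omega)
        rw [hc, pow_succ', Int.mul_ediv_mul_of_pos _ _ (by omega)] at h2
        exact h2
      obtain ⟨c', hc'⟩ := Int.dvd_of_emod_eq_zero h1
      apply Int.emod_eq_zero_of_dvd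
      exact ⟨c', by rw [hc, hc', pow_succ]; ring⟩

lemma floor_pow_div {b : ℕ} (hb : 1 ≤ b) (ξ : ℝ) (k i : ℕ) (hi : i ≤ k) :
    ⌊ξ * (b : ℝ) ^ k⌋ / (b : ℤ) ^ i = ⌊ξ * (b : ℝ) ^ (k - i)⌋ := by
  have hb0 : (b : ℝ) ≠ 0 := by positivity
  have h := Int.floor_div_natCast (ξ * (b : ℝ) ^ k) (b ^ i)
  push_cast at h
  rw [← h]
  congr 1
  rw [mul_div_assoc, pow_sub₀ _ hb0 hi]
  rfl

/-- digits in the base `b ^ t` and windows of digits in the base `b` -/
lemma block {b : ℕ} (hb : 2 ≤ b) {t : ℕ} (ht : 1 ≤ t) {ξ : ℝ} (s j : ℕ) :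
    x (b ^ t) (Int.fract ((b : ℝ) ^ s * ξ)) (j + 1) = 0 ↔
      ∀ i < t, dgt b ξ (s + t * j + 1 + i) = 0 := by
  set η : ℝ := (b : ℝ) ^ s * ξ with hη
  set B' : ℕ := b ^ t with hB'
  have hB2 : 2 ≤ B' := by
    calc 2 ≤ b := hb
      _ = b ^ 1 := (pow_one b).symm
      _ ≤ b ^ t := Nat.pow_le_pow_right (by omega) ht
  have hξ : η = ⌊η⌋ + Int.fract η := (Int.floor_add_fract η).symm
  set y := Int.fract η with hy
  have hy0 : 0 ≤ y := Int.fract_nonneg η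
  have hdig : ⌊η * (B' : ℝ) ^ (j + 1)⌋ % (B' : ℤ) = (x B' y (j + 1) : ℤ) := by
    have h1 : η * (B' : ℝ) ^ (j + 1) = ((⌊η⌋ * (B' : ℤ) ^ (j + 1) : ℤ) : ℝ) +
        y * (B' : ℝ) ^ (j + 1) := by
      nth_rewrite 1 [hξ]
      push_cast
      ring
    rw [h1, Int.floor_intCast_add]
    unfold x Pool.Agent.H394R2.Ones.B
    push_cast
    rw [Int.natCast_floor_eq_floor (by positivity)]
    rw [show ⌊η⌋ * (B' : ℤ) ^ (j + 1) + ⌊y * (B' : ℝ) ^ (j + 1)⌋ =
      ⌊y * (B' : ℝ) ^ (j + 1)⌋ + (B' : ℤ) * (⌊η⌋ * (B' : ℤ) ^ j) by ring, Int.add_mul_emod_self_left]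
  have h2 : η * (B' : ℝ) ^ (j + 1) = ξ * (b : ℝ) ^ (s + t * (j + 1)) := by
    rw [hη, hB']
    push_cast
    rw [← pow_mul, pow_add]
    ring
  have h3 : x B' y (j + 1) = 0 ↔ ⌊ξ * (b : ℝ) ^ (s + t * (j + 1))⌋ % ((b : ℤ) ^ t) = 0 := by
    rw [h2] at hdig
    have h4 : ((B' : ℕ) : ℤ) = (b : ℤ) ^ t := by rw [hB']; push_cast; rfl
    rw [h4] at hdig
    rw [hdig]
    norm_cast
  rw [h3, emod_pow_eq_zero b (by omega)]
  have h5 : ∀ i < t, (⌊ξ * (b : ℝ) ^ (s + t * (j + 1))⌋ / (b : ℤ) ^ i) % b =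
      dgt b ξ (s + t * j + 1 + (t - 1 - i)) := by
    intro i hi
    rw [floor_pow_div (by omega) ξ _ i (by
      have : t ≤ s + t * (j + 1) := by rw [mul_add, mul_one]; omega
      omega)]
    unfold dgt
    rw [show s + t * (j + 1) - i = s + t * j + 1 + (t - 1 - i) by rw [mul_add, mul_one]; omega]
  constructor
  · intro h i hi
    have h6 := h (t - 1 - i) (by omega)
    rw [h5 _ (by omega)] at h6
    rw [show t - 1 - (t - 1 - i) = i by omega] at h6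
    exact h6
  · intro h i hi
    rw [h5 i hi]
    exact h _ (by omega)

/-- windows with a digit different from `v` -/
noncomputable def wns (b : ℕ) (v : ℤ) (ξ : ℝ) (t n : ℕ) : ℕ :=
  ((Icc 1 (n + 1 - t)).filter (fun k => ∃ i < t, dgt b ξ (k + i) ≠ v)).card

lemma wns_ge {b : ℕ} (hb : 2 ≤ b) {t : ℕ} (ht : 1 ≤ t) (ξ : ℝ) (M n : ℕ) (hM : t * M + t ≤ n) :
    ∑ s ∈ range t, cnt (b ^ t) (Int.fract ((b : ℝ) ^ s * ξ)) M ≤ wns b 0 ξ t n := by
  unfold cnt
  rw [← card_sigma]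
  unfold wns
  refine card_le_card_of_injOn (fun p : (Σ _ : ℕ, ℕ) => p.1 + t * p.2 + 1) ?_ ?_
  · intro p hp
    simp only [coe_sigma, Set.mem_sigma_iff, mem_coe, mem_range, mem_filter] at hp
    simp only [coe_filter, Set.mem_ofPred_eq, mem_Icc]
    obtain ⟨h3, h4, h5⟩ := hp
    refine ⟨⟨by omega, ?_⟩, ?_⟩
    · have h6 : t * (p.2 + 1) ≤ t * M := Nat.mul_le_mul_left _ (by omega)
      rw [mul_add, mul_one] at h6
      omega
    · rw [ne_eq, block hb ht p.1 p.2] at h5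
      push Not at h5
      obtain ⟨i, hi, h6⟩ := h5
      exact ⟨i, hi, h6⟩
  · intro p hp p' hp' h
    simp only [coe_sigma, Set.mem_sigma_iff, mem_coe, mem_range] at hp hp'
    simp only at h
    have h3 : p.1 + t * p.2 = p'.1 + t * p'.2 := by omega
    have h4 : (p.1 + t * p.2) % t = (p'.1 + t * p'.2) % t := by rw [h3]
    rw [Nat.add_mul_mod_self_left, Nat.add_mul_mod_self_left, Nat.mod_eq_of_lt hp.1,
      Nat.mod_eq_of_lt hp'.1] at h4
    have h5 : t * p.2 = t * p'.2 := by omega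
    have h6 : p.2 = p'.2 := Nat.eq_of_mul_eq_mul_left (by omega) h5
    obtain ⟨a, c⟩ := p
    obtain ⟨a', c'⟩ := p'
    simp only at h4 h6
    rw [h4, h6]

lemma dgt_neg {b : ℕ} (hb : 2 ≤ b) {ξ : ℝ} (hirr : Irrational ξ) (k : ℕ) :
    dgt b (-ξ) k = b - 1 - dgt b ξ k :=
  Pool.Agent.H820R3.DG.digit_neg hb hirr k

lemma wns_neg {b : ℕ} (hb : 2 ≤ b) {ξ : ℝ} (hirr : Irrational ξ) (t n : ℕ) :
    wns b 0 (-ξ) t n = wns b (b - 1) ξ t n := by
  unfold wns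
  congr 1
  refine filter_congr fun k _ => ?_
  constructor
  · rintro ⟨i, hi, h⟩
    rw [dgt_neg hb hirr] at h
    exact ⟨i, hi, fun h2 => h (by rw [h2]; ring)⟩
  · rintro ⟨i, hi, h⟩
    refine ⟨i, hi, fun h2 => h ?_⟩
    rw [dgt_neg hb hirr] at h2
    linarith

lemma fract_facts {η : ℝ} (hirr : Irrational η) :
    0 < Int.fract η ∧ Int.fract η < 1 ∧ Irrational (Int.fract η) := by
  have h2 : Irrational (Int.fract η) := by
    have h3 : Int.fract η = η - (⌊η⌋ : ℤ) := rfl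
    rw [h3]
    exact hirr.sub_intCast _
  exact ⟨lt_of_le_of_ne (Int.fract_nonneg _) (Ne.symm h2.ne_zero), Int.fract_lt_one _, h2⟩

lemma fract_alg {η : ℝ} (halg : IsAlgebraic ℚ η) : IsAlgebraic ℚ (Int.fract η) := by
  have h1 : Int.fract η = η - algebraMap ℚ ℝ (⌊η⌋ : ℚ) := by
    have : Int.fract η = η - (⌊η⌋ : ℤ) := rfl
    rw [this]; simp
  rw [h1]
  exact halg.sub (isAlgebraic_algebraMap _)

section
variable {ι : Type} [Fintype ι] [DecidableEq ι]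

/-- the theorem for the digit zero -/
theorem main_zero {b : ℕ} (hb : 2 ≤ b) (hcard : 2 ≤ Fintype.card ι) (z : ι → ℝ)
    (halg : ∀ i, IsAlgebraic ℚ (z i)) (hirr : ∀ i, Irrational (z i))
    (q : ℕ) (hq : 1 ≤ q) (hrel : Rel q z) (t : ℕ) (ht : 1 ≤ t)
    (L : ℕ) (hL1 : 1 ≤ L) (hL : q * (b ^ t - 1) ^ (Fintype.card ι - 1) < b ^ (t * L))
    {ε : ℝ} (hε : 0 < ε) :
    ∃ n0 : ℕ, ∀ n : ℕ, n0 ≤ n →
      (1 - ε) * ((t : ℝ) ^ (Fintype.card ι - 1) * n) ≤ L * ∏ i, (wns b 0 (z i) t n : ℝ) := by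
  classical
  have hbt : 2 ≤ b ^ t := by
    calc 2 ≤ b := hb
      _ = b ^ 1 := (pow_one b).symm
      _ ≤ b ^ t := Nat.pow_le_pow_right (by omega) ht
  set D := Fintype.card ι with hD
  have htR : (1 : ℝ) ≤ t := by exact_mod_cast ht
  -- one choice of the offsets
  have hone : ∀ f : ι → ℕ, ∃ n0 : ℕ, ∀ n : ℕ, n0 ≤ n →
      (1 - ε / 2) * n ≤ L * ∏ i, (cnt (b ^ t) (Int.fract ((b : ℝ) ^ f i * z i)) n : ℝ) := by
    intro f
    have hirr' : ∀ i, Irrational ((b : ℝ) ^ f i * z i) := fun i => by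
      have h1 : Irrational (((b ^ f i : ℕ) : ℝ) * z i) := (hirr i).natCast_mul (by positivity)
      push_cast at h1
      exact h1
    have halg' : ∀ i, IsAlgebraic ℚ ((b : ℝ) ^ f i * z i) := fun i => by
      refine IsAlgebraic.mul ?_ (halg i)
      have h1 : ((b : ℝ) ^ f i) = algebraMap ℚ ℝ ((b : ℚ) ^ f i) := by simp
      rw [h1]
      exact isAlgebraic_algebraMap _
    have hr1 : Rel q (fun i => (b : ℝ) ^ f i * z i) := by
      have h1 := hrel.scale (fun i => ((b : ℤ) ^ f i))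
      push_cast at h1
      exact h1
    obtain ⟨p, hp⟩ : Rel q (fun i => 1 + Int.fract ((b : ℝ) ^ f i * z i)) := by
      refine hr1.affine (fun _ => 1) (fun i => ⌊(b : ℝ) ^ f i * z i⌋ - 1) (fun _ => Or.inl rfl)
        fun i => ?_
      have := Int.floor_add_fract ((b : ℝ) ^ f i * z i)
      push_cast
      linarith
    refine prodY (b := b ^ t) hbt hcard (fun i => Int.fract ((b : ℝ) ^ f i * z i))
      (fun i => (fract_facts (hirr' i)).1) (fun i => (fract_facts (hirr' i)).2.1)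
      (fun i => fract_alg (halg' i)) (fun i => (fract_facts (hirr' i)).2.2) q hq p hp L hL1 ?_
      (by positivity)
    rw [← pow_mul]
    exact hL
  choose N hN using hone
  set N0 : ℕ := (Fintype.piFinset fun _ : ι => range t).sup N with hN0
  obtain ⟨n2, hn2⟩ := exists_nat_ge (4 * t / ε)
  refine ⟨max (t * (N0 + 2)) n2, fun n hn => ?_⟩
  have hn1' : t * (N0 + 2) ≤ n := (le_max_left _ _).trans hn
  have hn2' : (4 * t / ε : ℝ) ≤ n := hn2.trans (by exact_mod_cast (le_max_right _ _).trans hn)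
  have hnR : (0 : ℝ) ≤ n := Nat.cast_nonneg _
  have hLR : (1 : ℝ) ≤ L := by exact_mod_cast hL1
  rcases le_or_gt 1 ε with hε1 | hε1
  · have h1 : (1 - ε) * ((t : ℝ) ^ (D - 1) * n) ≤ 0 :=
      mul_nonpos_of_nonpos_of_nonneg (by linarith) (by positivity)
    have h2 : 0 ≤ (L : ℝ) * ∏ i, (wns b 0 (z i) t n : ℝ) := by positivity
    linarith
  set M : ℕ := n / t - 1 with hM
  have hdiv : N0 + 2 ≤ n / t := by
    rw [Nat.le_div_iff_mul_le (by omega), mul_comm]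
    exact hn1'
  have hMn : t * M + t ≤ n := by
    have h1 : t * (n / t) ≤ n := Nat.mul_div_le _ _
    have h2 : t * M + t = t * (n / t) := by
      obtain ⟨a, ha⟩ : ∃ a, n / t = a + 1 := ⟨n / t - 1, by omega⟩
      rw [hM, ha, Nat.add_sub_cancel]
      ring
    omega
  have hMn2 : n ≤ t * M + 2 * t := by
    have h1 : n < t * (n / t) + t := Nat.lt_mul_div_succ _ (by omega)
    have h2 : t * M + t = t * (n / t) := by
      obtain ⟨a, ha⟩ : ∃ a, n / t = a + 1 := ⟨n / t - 1, by omega⟩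
      rw [hM, ha, Nat.add_sub_cancel]
      ring
    omega
  have hMN : N0 ≤ M := by omega
  -- the product
  have h1 : ∑ f ∈ Fintype.piFinset (fun _ : ι => range t),
      ∏ i, (cnt (b ^ t) (Int.fract ((b : ℝ) ^ f i * z i)) M : ℝ) ≤
        ∏ i, (wns b 0 (z i) t n : ℝ) := by
    rw [← prod_univ_sum (fun _ : ι => range t)
      (fun i s => (cnt (b ^ t) (Int.fract ((b : ℝ) ^ s * z i)) M : ℝ))]
    refine prod_le_prod (fun i _ => sum_nonneg fun _ _ => Nat.cast_nonneg _) fun i _ => ?_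
    have h2 := wns_ge hb ht (z i) M n hMn
    exact_mod_cast h2
  have h2 : ∑ _f ∈ Fintype.piFinset (fun _ : ι => range t), (1 - ε / 2) * (M : ℝ) ≤
      L * ∑ f ∈ Fintype.piFinset (fun _ : ι => range t),
      ∏ i, (cnt (b ^ t) (Int.fract ((b : ℝ) ^ f i * z i)) M : ℝ) := by
    rw [mul_sum]
    refine sum_le_sum fun f hf => hN f M ?_
    exact le_trans (le_sup (f := N) hf) hMN
  rw [sum_const, Fintype.card_piFinset, prod_const, card_range, card_univ, nsmul_eq_mul,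
    ← hD] at h2
  push_cast at h2
  have h3 : (1 - ε) * ((t : ℝ) ^ (D - 1) * n) ≤ (t : ℝ) ^ D * ((1 - ε / 2) * M) := by
    obtain ⟨d, hd⟩ : ∃ d, D = d + 1 := ⟨D - 1, by omega⟩
    rw [hd, Nat.add_sub_cancel, pow_succ]
    have h4 : (n : ℝ) ≤ t * M + 2 * t := by exact_mod_cast hMn2
    have h5 : (1 - ε / 2) * (n : ℝ) ≤ t * M := by
      rw [div_le_iff₀ hε] at hn2'
      linarith
    have h6 : (1 - ε) * (n : ℝ) ≤ (1 - ε / 2) * (t * M) := by
      have h7 : (1 - ε / 2) * ((1 - ε / 2) * (n : ℝ)) ≤ (1 - ε / 2) * (t * M) :=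
        mul_le_mul_of_nonneg_left h5 (by linarith)
      have h8 : (1 - ε) * (n : ℝ) ≤ (1 - ε / 2) * ((1 - ε / 2) * (n : ℝ)) := by
        nlinarith [mul_nonneg (mul_nonneg hε.le hε.le) hnR]
      linarith
    calc (1 - ε) * ((t : ℝ) ^ d * n) = (t : ℝ) ^ d * ((1 - ε) * n) := by ring
      _ ≤ (t : ℝ) ^ d * ((1 - ε / 2) * (t * M)) :=
          mul_le_mul_of_nonneg_left h6 (by positivity)
      _ = _ := by ring
  have h4 := mul_le_mul_of_nonneg_left h1 (by linarith : (0 : ℝ) ≤ L)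
  linarith

/-- the theorem -/
theorem main_all {b : ℕ} (hb : 2 ≤ b) (hcard : 2 ≤ Fintype.card ι) (ξ : ι → ℝ)
    (halg : ∀ i, IsAlgebraic ℚ (ξ i)) (hirr : ∀ i, Irrational (ξ i))
    (q : ℕ) (hq : 1 ≤ q) (hrel : Rel q ξ) (v : ι → ℤ) (hv : ∀ i, v i = 0 ∨ v i = b - 1)
    (t : ℕ) (ht : 1 ≤ t)
    (L : ℕ) (hL1 : 1 ≤ L) (hL : q * (b ^ t - 1) ^ (Fintype.card ι - 1) < b ^ (t * L))
    {ε : ℝ} (hε : 0 < ε) :
    ∃ n0 : ℕ, ∀ n : ℕ, n0 ≤ n →
      (1 - ε) * ((t : ℝ) ^ (Fintype.card ι - 1) * n) ≤ L * ∏ i, (wns b (v i) (ξ i) t n : ℝ) := by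
  classical
  set σ : ι → ℤ := fun i => if v i = 0 then 1 else -1 with hσ
  have hσ' : ∀ i, (v i = 0 ∧ σ i = 1) ∨ (v i = b - 1 ∧ σ i = -1) := by
    intro i
    simp only [hσ]
    by_cases h : v i = 0
    · exact Or.inl ⟨h, by rw [if_pos h]⟩
    · exact Or.inr ⟨(hv i).resolve_left h, by rw [if_neg h]⟩
  have h := main_zero hb hcard (fun i => (σ i : ℝ) * ξ i) (fun i => ?_) (fun i => ?_) q hq
    (hrel.scale σ) t ht L hL1 hL hε
  · obtain ⟨n0, h0⟩ := h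
    refine ⟨n0, fun n hn => ?_⟩
    have h1 := h0 n hn
    have h2 : ∀ i, wns b 0 ((σ i : ℝ) * ξ i) t n = wns b (v i) (ξ i) t n := by
      intro i
      rcases hσ' i with ⟨h3, h4⟩ | ⟨h3, h4⟩
      · rw [h4, h3, Int.cast_one, one_mul]
      · rw [h4, h3, Int.cast_neg, Int.cast_one, neg_one_mul, wns_neg hb (hirr i)]
    simp only [h2] at h1
    exact h1
  · rcases hσ' i with ⟨-, h4⟩ | ⟨-, h4⟩
    · simp only [h4, Int.cast_one, one_mul]; exact halg i
    · simp only [h4, Int.cast_neg, Int.cast_one, neg_one_mul]; exact (halg i).neg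
  · rcases hσ' i with ⟨-, h4⟩ | ⟨-, h4⟩
    · simp only [h4, Int.cast_one, one_mul]; exact hirr i
    · simp only [h4, Int.cast_neg, Int.cast_one, neg_one_mul]; exact (hirr i).neg

end

end Pool.Agent.H90.PR
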