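import Pool.Graph.R_pool_sql_team_seeded_620a6dc7.Helper161SP.Live

/-!
# Positions with small tails, for a product with one distinguished factor
-/

set_option autoImplicit false

open Finset

namespace Pool.Agent.H90.PR

open Pool.Agent.H394R2.Ones Pool.Agent.H820R3.DG Pool.Agent.Helper161SP

open PowerSeries (coeff)

section
variable {b : ℕ}

/-- the tail of the product with one more factor -/
noncomputable def TG (b : ℕ) (y0 : ℝ) (G : PowerSeries ℕ) (x : ℝ) (m : ℕ) : ℝ :=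
  tl b (Fy b y0 * G) ((1 + y0) * x) m

lemma TG_ge (hb : 2 ≤ b) {y0 : ℝ} (hy00 : 0 < y0) (hy01 : y0 < 1) {G : PowerSeries ℕ} {x : ℝ}
    (hnn : ∀ n, 0 ≤ tl b G x n) {m j : ℕ} (hj : j ≤ m)
    (hs : 1 ≤ coeff j G) : ep b y0 (m - j) ≤ TG b y0 G x m := by
  unfold TG
  rw [tl_mul]
  have h1 : 0 ≤ (1 + y0) * tl b G x m :=
    mul_nonneg (by linarith) (hnn m)
  have h2 : ((coeff j G : ℕ) : ℝ) * tl b (Fy b y0) (1 + y0) (m - j) ≤
      ∑ p ∈ antidiagonal m, ((coeff p.1 G : ℕ) : ℝ) * tl b (Fy b y0) (1 + y0) p.2 := by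
    refine single_le_sum (f := fun p : ℕ × ℕ => ((coeff p.1 G : ℕ) : ℝ) *
      tl b (Fy b y0) (1 + y0) p.2) (fun p _ => ?_) (a := (j, m - j)) ?_
    · rw [tl_Fy hb hy00 hy01]
      exact mul_nonneg (Nat.cast_nonneg _) (ep_nonneg hy00 _)
    · rw [Finset.HasAntidiagonal.mem_antidiagonal]
      simp only
      omega
  rw [tl_Fy hb hy00 hy01] at h2
  have h3 : (1 : ℝ) ≤ ((coeff j G : ℕ) : ℝ) := by exact_mod_cast hs
  have h4 := ep_nonneg (b := b) hy00 (m - j)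
  nlinarith

lemma TG_nonneg (hb : 2 ≤ b) {y0 : ℝ} (hy00 : 0 < y0) (hy01 : y0 < 1) {G : PowerSeries ℕ} {x : ℝ}
    (hnn : ∀ n, 0 ≤ tl b G x n) (m : ℕ) : 0 ≤ TG b y0 G x m := by
  unfold TG
  rw [tl_mul]
  refine add_nonneg (sum_nonneg fun p _ => ?_) (mul_nonneg (by linarith) (hnn m))
  rw [tl_Fy hb hy00 hy01]
  exact mul_nonneg (Nat.cast_nonneg _) (ep_nonneg hy00 _)

/-- position of the exceptional places -/
theorem pos_gen (hb : 2 ≤ b) {y0 : ℝ} (hy00 : 0 < y0) (hy01 : y0 < 1) (halg : IsAlgebraic ℚ y0)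
    (hirr : Irrational y0) (G : PowerSeries ℕ) (x : ℝ) (hnn : ∀ n, 0 ≤ tl b G x n)
    (c : ℝ) (hc : 0 ≤ c) (δ : ℝ) (hδ : 0 < δ) (hδ1 : δ ≤ 1) :
    ∃ L0 : ℕ, ∀ (a' X : ℕ) (VX : ℝ), (∀ n ≤ X, tl b G x n ≤ VX) → c * VX < (b : ℝ) ^ a' →
      ∀ m j j' : ℕ, j ≤ m → m < j' → j' ≤ X → 1 ≤ coeff j G →
      (∀ k, j < k → k < j' → coeff k G = 0) →
      (TG b y0 G x m ≤ c * tl b G x m ∨ 1 ≤ c * tl b G x m) →
      m < j + L0 ∨ (j' : ℝ) ≤ m + (a' + 2) + δ * ((j' : ℝ) - j) := by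
  obtain ⟨L0, hgap⟩ := gap hb hy00 halg hirr δ hδ hδ1
  have hb1 : (1 : ℝ) < b := by exact_mod_cast (by omega : 1 < b)
  have hb0 : (0 : ℝ) < b := by linarith
  refine ⟨L0, ?_⟩
  intro a' X VX hVX hX m j j' hjm hmj' hj'X hj hz hbad
  rcases Nat.lt_or_ge (m - j) L0 with hL | hL
  · left; omega
  right
  have hmj'R : (m : ℝ) ≤ j' := by exact_mod_cast hmj'.le
  have hjmR : (j : ℝ) ≤ m := by exact_mod_cast hjm
  have h10 : 0 ≤ δ * ((j' : ℝ) - j) := mul_nonneg hδ.le (by linarith)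
  have htz := tl_zeros (b := b) G x m (j' - 1 - m) (fun k hk1 hk2 => hz k (by omega) (by omega))
  have e1 : m + (j' - 1 - m) = j' - 1 := by omega
  rw [e1] at htz
  have hV := hVX (j' - 1) (by omega)
  rw [htz] at hV
  have hV0 := hnn m
  set V := tl b G x m with hVd
  have hpow : (0 : ℝ) < (b : ℝ) ^ (j' - 1 - m) := by positivity
  rcases hbad with hbad | hbad
  · obtain ⟨k, hk1, hk2, hk3⟩ := hgap (m - j) hL
    obtain ⟨h, rfl⟩ : ∃ h, k = m - j + h + 1 := ⟨k - (m - j) - 1, by omega⟩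
    have h1 := ep_large hb hy00 (m - j) h hk3
    have h2 := TG_ge hb hy00 hy01 hnn hjm hj
    have h7 : (b : ℝ) ^ (j' - 1 - m) < (b : ℝ) ^ (a' + (h + 1)) := by
      have e2 : 1 ≤ (b : ℝ) ^ (h + 1) * (c * V) := by
        have h8 := mul_le_mul_of_nonneg_left (h2.trans hbad)
          (by positivity : (0 : ℝ) ≤ (b : ℝ) ^ (h + 1))
        linarith
      calc (b : ℝ) ^ (j' - 1 - m) = (b : ℝ) ^ (j' - 1 - m) * 1 := by ring
        _ ≤ (b : ℝ) ^ (j' - 1 - m) * ((b : ℝ) ^ (h + 1) * (c * V)) := by gcongr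
        _ = (b : ℝ) ^ (h + 1) * (c * ((b : ℝ) ^ (j' - 1 - m) * V)) := by ring
        _ ≤ (b : ℝ) ^ (h + 1) * (c * VX) := by gcongr
        _ < (b : ℝ) ^ (h + 1) * (b : ℝ) ^ a' := by
            apply mul_lt_mul_of_pos_left hX (by positivity)
        _ = _ := by rw [pow_add (b : ℝ) a']; ring
    have h8 : j' - 1 - m < a' + (h + 1) := (pow_lt_pow_iff_right₀ hb1).mp h7
    have h9 : j' ≤ m + a' + (h + 1) := by omega
    have h9' : (j' : ℝ) ≤ m + a' + (h + 1) := by exact_mod_cast h9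
    push_cast at hk2
    have hcast : ((m - j : ℕ) : ℝ) = m - j := by rw [Nat.cast_sub hjm]
    rw [hcast] at hk2
    have h11 : δ * ((m : ℝ) - j) ≤ δ * ((j' : ℝ) - j) :=
      mul_le_mul_of_nonneg_left (by linarith) hδ.le
    linarith
  · have h1 : (b : ℝ) ^ (j' - 1 - m) < (b : ℝ) ^ a' := by
      calc (b : ℝ) ^ (j' - 1 - m) = (b : ℝ) ^ (j' - 1 - m) * 1 := by ring
        _ ≤ (b : ℝ) ^ (j' - 1 - m) * (c * V) := by gcongr
        _ = c * ((b : ℝ) ^ (j' - 1 - m) * V) := by ring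
        _ ≤ c * VX := by gcongr
        _ < _ := hX
    have h8 : j' - 1 - m < a' := (pow_lt_pow_iff_right₀ hb1).mp h1
    have h9 : j' ≤ m + (a' + 2) := by omega
    have h9' : (j' : ℝ) ≤ m + (a' + 2) := by exact_mod_cast h9
    linarith

open Classical in
/-- the number of exceptional places -/
theorem card_gen (hb : 2 ≤ b) {y0 : ℝ} (hy00 : 0 < y0) (hy01 : y0 < 1) (halg : IsAlgebraic ℚ y0)
    (hirr : Irrational y0) (G : PowerSeries ℕ) (x : ℝ) (hG0 : 1 ≤ coeff 0 G)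
    (hnn : ∀ n, 0 ≤ tl b G x n) (C0 : ℝ) (e : ℕ)
    (hpoly : ∀ n : ℕ, tl b G x n ≤ C0 * ((n : ℝ) + 1) ^ e) (L1 : ℕ)
    (hgapG : ∀ n : ℕ, L1 ≤ n → ∃ k, n < k ∧ (k : ℝ) ≤ n + 1 + 1 / 2 * n ∧ 1 ≤ coeff k G)
    (c : ℝ) (hc : 0 ≤ c) (δ : ℝ) (hδ : 0 < δ) (hδ1 : δ ≤ 1) :
    ∃ C : ℝ, 0 ≤ C ∧ ∀ n : ℕ,
      (((range n).filter (fun m => TG b y0 G x m ≤ c * tl b G x m ∨
        1 ≤ c * tl b G x m)).card : ℝ) ≤
        C * (1 + Real.log ((n : ℝ) + 1)) *
          ((((range n).filter (fun m => 1 ≤ coeff m G)).card : ℝ) + 1) + δ * n := by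
  have hb1 : (1 : ℝ) < b := by exact_mod_cast (by omega : 1 < b)
  have hb0 : (0 : ℝ) < b := by linarith
  have hlogb : 0 < Real.log b := Real.log_pos hb1
  obtain ⟨L0, hpos⟩ := pos_gen hb hy00 hy01 halg hirr G x hnn c hc (δ / 2) (by positivity)
    (by linarith)
  have hC00 : 0 ≤ C0 := by
    have := (hnn 0).trans (hpoly 0)
    simpa using this
  set A0 : ℝ := Real.log ((c * C0 + 1) * 3 ^ e) with hA0
  have h3e : (1 : ℝ) ≤ 3 ^ e := one_le_pow₀ (by norm_num)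
  have hcC : 0 ≤ c * C0 := mul_nonneg hc hC00
  have hA1 : 1 ≤ (c * C0 + 1) * 3 ^ e := one_le_mul_of_one_le_of_one_le (by linarith) h3e
  have hA00 : 0 ≤ A0 := Real.log_nonneg hA1
  set C5 : ℝ := (A0 + e) / Real.log b + 3 + L0 with hC5
  have hC50 : 0 ≤ C5 := by positivity
  refine ⟨2 * C5 + L1 + 4, by positivity, fun n => ?_⟩
  have hn0 : (0 : ℝ) ≤ n := Nat.cast_nonneg _
  have hℓ : 0 ≤ Real.log ((n : ℝ) + 1) := Real.log_nonneg (by linarith)
  set ℓ := Real.log ((n : ℝ) + 1) with hℓdef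
  have hL1 : (0 : ℝ) ≤ L1 := Nat.cast_nonneg _
  set I : ℝ := (((range n).filter (fun m => 1 ≤ coeff m G)).card : ℝ) with hI
  have hI0 : 0 ≤ I := Nat.cast_nonneg _
  have hδn : 0 ≤ δ * n := by positivity
  rcases Nat.lt_or_ge n L1 with hnL | hnL
  · have h1 : ((range n).filter (fun m => TG b y0 G x m ≤ c * tl b G x m ∨
        1 ≤ c * tl b G x m)).card ≤ n := by
      refine (card_filter_le _ _).trans ?_
      simp
    have h2 : (((range n).filter (fun m => TG b y0 G x m ≤ c * tl b G x m ∨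
        1 ≤ c * tl b G x m)).card : ℝ) ≤ L1 := by exact_mod_cast (h1.trans hnL.le)
    have h3 : (L1 : ℝ) * 1 * 1 ≤ (2 * C5 + L1 + 4) * (1 + ℓ) * (I + 1) := by
      gcongr
      · linarith
      · linarith
      · linarith
    linarith
  -- the parameters
  set X : ℕ := 2 * n + 2 with hX
  set VX : ℝ := C0 * (3 * ((n : ℝ) + 1)) ^ e with hVX
  set V : ℝ := c * VX with hV
  have hVX0 : 0 ≤ VX := by positivity
  have hV0 : 0 ≤ V := by positivity
  have hVXb : ∀ k ≤ X, tl b G x k ≤ VX := by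
    intro k hk
    refine (hpoly k).trans ?_
    rw [hVX]
    have hk' : (k : ℝ) ≤ 2 * n + 2 := by exact_mod_cast hk
    gcongr
    linarith
  have hV1 : V + 1 ≤ (c * C0 + 1) * 3 ^ e * ((n : ℝ) + 1) ^ e := by
    have h1 : V = c * C0 * (3 ^ e * ((n : ℝ) + 1) ^ e) := by
      rw [hV, hVX, mul_pow]; ring
    have h2 : (1 : ℝ) ≤ ((n : ℝ) + 1) ^ e := one_le_pow₀ (by linarith)
    have h4 : (1 : ℝ) ≤ 3 ^ e * ((n : ℝ) + 1) ^ e := one_le_mul_of_one_le_of_one_le h3e h2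
    rw [h1]
    linarith
  have hlogV : Real.log (V + 1) ≤ A0 + e * ℓ := by
    calc Real.log (V + 1) ≤ Real.log ((c * C0 + 1) * 3 ^ e * ((n : ℝ) + 1) ^ e) :=
          Real.log_le_log (by linarith) hV1
      _ = A0 + e * ℓ := by
        rw [Real.log_mul (by linarith) (by positivity), Real.log_pow]
  set a' : ℕ := ⌊Real.log (V + 1) / Real.log b⌋₊ + 1 with ha'
  have hlV0 : 0 ≤ Real.log (V + 1) := Real.log_nonneg (by linarith)
  have ha'1 : V < (b : ℝ) ^ a' := by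
    have h1 : Real.log (V + 1) / Real.log b < a' := by
      rw [ha']; push_cast; exact Nat.lt_floor_add_one _
    rw [div_lt_iff₀ hlogb] at h1
    have h2 : Real.log (V + 1) < Real.log ((b : ℝ) ^ a') := by rw [Real.log_pow]; exact h1
    have h3 := (Real.log_lt_log_iff (by linarith) (by positivity)).mp h2
    linarith
  have ha'2 : (a' : ℝ) + 2 + L0 ≤ C5 * (1 + ℓ) := by
    have h1 : (a' : ℝ) ≤ Real.log (V + 1) / Real.log b + 1 := by
      rw [ha']; push_cast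
      have := Nat.floor_le (div_nonneg hlV0 hlogb.le)
      linarith
    have h2 : Real.log (V + 1) / Real.log b ≤ (A0 + e * ℓ) / Real.log b :=
      div_le_div_of_nonneg_right hlogV hlogb.le
    have h3 : (A0 + e * ℓ) / Real.log b ≤ (A0 + e) / Real.log b * (1 + ℓ) := by
      rw [div_mul_eq_mul_div]
      apply div_le_div_of_nonneg_right _ hlogb.le
      have : (0 : ℝ) ≤ e := Nat.cast_nonneg _
      nlinarith
    have h4 : (0 : ℝ) ≤ L0 := Nat.cast_nonneg _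
    have h5 : C5 * (1 + ℓ) = (A0 + e) / Real.log b * (1 + ℓ) + (3 + L0) * (1 + ℓ) := by
      rw [hC5]; ring
    have h6 : 3 + (L0 : ℝ) ≤ (3 + L0) * (1 + ℓ) := by nlinarith
    linarith
  -- the next element
  obtain ⟨k, hk1, hk2, hk3⟩ := hgapG n hnL
  have hex : ∃ k, n ≤ k ∧ 1 ≤ coeff k G := ⟨k, hk1.le, hk3⟩
  set j' := Nat.find hex with hj'
  have hj'1 := Nat.find_spec hex
  rw [← hj'] at hj'1
  have hj'k : j' ≤ k := Nat.find_min' hex ⟨hk1.le, hk3⟩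
  have hj'R : (j' : ℝ) ≤ n + 1 + 1 / 2 * n := by
    have : (j' : ℝ) ≤ k := by exact_mod_cast hj'k
    linarith
  have hj'X : j' ≤ X := by
    have : (j' : ℝ) ≤ (X : ℕ) := by rw [hX]; push_cast; linarith
    exact_mod_cast this
  have h1 := count_blocks2 (fun k => 1 ≤ coeff k G)
    (fun m => TG b y0 G x m ≤ c * tl b G x m ∨ 1 ≤ c * tl b G x m) 1 (a' + 2 + L0) X (δ / 2)
    (by positivity) ⟨0, by norm_num, hG0⟩ (by
      intro m j j'' _ h3 h4 h5 h6 _ h8 h9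
      rcases hpos a' X VX hVXb ha'1 m j j'' h3 h4 h5 h6 (fun k hk1 hk2 => by
        have := h8 k hk1 hk2
        omega) h9 with h10 | h10
      · left; omega
      · right
        push_cast
        have : (0 : ℝ) ≤ L0 := Nat.cast_nonneg _
        linarith) n j' hj'1.1 hj'X hj'1.2
    (fun k' hk'1 hk'2 hk'3 => Nat.find_min hex hk'2 ⟨hk'1, hk'3⟩)
  have h2 : ((range n).filter (fun m => TG b y0 G x m ≤ c * tl b G x m ∨
        1 ≤ c * tl b G x m)).card ≤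
      ((range n).filter (fun m => 1 ≤ m ∧ (TG b y0 G x m ≤ c * tl b G x m ∨
        1 ≤ c * tl b G x m))).card + 1 := by
    have h3 : (range n).filter (fun m => TG b y0 G x m ≤ c * tl b G x m ∨
        1 ≤ c * tl b G x m) ⊆
        (range n).filter (fun m => 1 ≤ m ∧ (TG b y0 G x m ≤ c * tl b G x m ∨
        1 ≤ c * tl b G x m)) ∪ range 1 := by
      intro m hm
      obtain ⟨hm1, hm2⟩ := mem_filter.mp hm
      rw [mem_union]
      rcases Nat.lt_or_ge m 1 with h4 | h4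
      · exact Or.inr (mem_range.mpr h4)
      · exact Or.inl (mem_filter.mpr ⟨hm1, h4, hm2⟩)
    have h4 := (card_le_card h3).trans (card_union_le _ _)
    rwa [card_range] at h4
  have h2' : (((range n).filter (fun m => TG b y0 G x m ≤ c * tl b G x m ∨
        1 ≤ c * tl b G x m)).card : ℝ) ≤
      ((range n).filter (fun m => 1 ≤ m ∧ (TG b y0 G x m ≤ c * tl b G x m ∨
        1 ≤ c * tl b G x m))).card + 1 := by
    exact_mod_cast h2
  have h1' : (((range n).filter (fun m => 1 ≤ m ∧ (TG b y0 G x m ≤ c * tl b G x m ∨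
        1 ≤ c * tl b G x m))).card : ℝ) ≤
      2 * ((a' : ℝ) + 2 + L0) * I + 2 * ((a' : ℝ) + 2 + L0) + δ / 2 * j' := by
    have h3 := h1
    push_cast at h3
    exact h3
  have h4 : δ / 2 * j' ≤ δ * n + 1 := by
    have : δ / 2 * j' ≤ δ / 2 * (n + 1 + 1 / 2 * n) :=
      mul_le_mul_of_nonneg_left hj'R (by positivity)
    nlinarith
  have ha0 : (0 : ℝ) ≤ a' + 2 + L0 := by positivity
  have h5 : 2 * ((a' : ℝ) + 2 + L0) * (I + 1) ≤ 2 * (C5 * (1 + ℓ)) * (I + 1) := by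
    apply mul_le_mul_of_nonneg_right _ (by positivity)
    linarith
  have h7 : (L1 + 4) * 1 * 1 ≤ (L1 + 4) * (1 + ℓ) * (I + 1) := by
    gcongr
    · linarith
    · linarith
  have h8 : (2 * C5 + L1 + 4) * (1 + ℓ) * (I + 1) =
      2 * (C5 * (1 + ℓ)) * (I + 1) + (L1 + 4) * (1 + ℓ) * (I + 1) := by ring
  rw [h8]
  linarith

end

end Pool.Agent.H90.PR
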