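import Mathlib

/-!
# A potential for carries

A sequence `T ≥ 0` with `T (m + 1) ≥ b T m - w k (m + 1)` which is mostly at least `θ`, where
`w ≤ (b - 1) b ^ L θ`, forces `L ∑ k ≥ N` approximately.
-/

set_option autoImplicit false

open Finset

namespace Pool.Agent.H90.PR

/-- the number of levels which are at most `T` -/
noncomputable def lev (b θ τ : ℝ) (L : ℕ) (T : ℝ) : ℕ :=
  ((Icc 1 L).filter (fun j => min (b ^ j * θ) τ ≤ T)).card

/-- the potential -/
noncomputable def HH (b θ w : ℝ) (L : ℕ) (T : ℝ) : ℕ :=
  lev b θ (w / (b - 1)) L T + ⌊(T - w / (b - 1)) / w⌋₊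

section
variable {b θ w : ℝ} {L : ℕ}

lemma lev_le (τ T : ℝ) : lev b θ τ L T ≤ L := by
  unfold lev
  refine (card_filter_le _ _).trans ?_
  simp

lemma lev_eq {τ T : ℝ} (h : τ ≤ T) : lev b θ τ L T = L := by
  unfold lev
  rw [filter_true_of_mem fun j _ => (min_le_right _ _).trans h]
  simp

lemma lev_mono {τ T T' : ℝ} (h : T ≤ T') : lev b θ τ L T ≤ lev b θ τ L T' := by
  unfold lev
  exact card_le_card (monotone_filter_right _ fun j _ hj => hj.trans h)

lemma HH_le (hb : 2 ≤ b) (hw : 0 < w) {T : ℝ} (hT : 0 ≤ T) :
    (HH b θ w L T : ℝ) ≤ L + T / w := by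
  unfold HH
  push_cast
  have h1 : (lev b θ (w / (b - 1)) L T : ℝ) ≤ L := by exact_mod_cast lev_le _ _
  have h2 : (⌊(T - w / (b - 1)) / w⌋₊ : ℝ) ≤ T / w := by
    rcases le_or_gt 0 ((T - w / (b - 1)) / w) with h | h
    · refine (Nat.floor_le h).trans ?_
      apply div_le_div_of_nonneg_right _ hw.le
      have : 0 ≤ w / (b - 1) := div_nonneg hw.le (by linarith)
      linarith
    · rw [Nat.floor_of_nonpos h.le]
      push_cast
      positivity
  linarith

/-- the step of the potential -/
theorem HH_step (hb : 2 ≤ b) (hθ : 0 < θ) (hw : 0 < w) (hθw : θ ≤ w / (b - 1))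
    (hL : 1 ≤ L) (hwL : w ≤ (b - 1) * (b ^ L * θ)) {T T' : ℝ} {k : ℕ}
    (h : b * T - w * k ≤ T') :
    1 + HH b θ w L T ≤ L * k + HH b θ w L T' + (if T < θ then 1 else 0) := by
  have hb1 : 0 < b - 1 := by linarith
  set τ := w / (b - 1) with hτ
  have hτw : (b - 1) * τ = w := by rw [hτ]; field_simp
  have hτ0 : 0 < τ := by rw [hτ]; positivity
  have hτL : τ ≤ b ^ L * θ := by
    rw [hτ, div_le_iff₀ hb1]; linarith
  have hHH : ∀ T, HH b θ w L T = lev b θ τ L T + ⌊(T - τ) / w⌋₊ := fun T => rfl
  rcases lt_or_ge T θ with hT | hT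
  · -- bad
    rw [if_pos hT]
    have h1 : lev b θ τ L T = 0 := by
      unfold lev
      rw [card_eq_zero, filter_eq_empty_iff]
      intro j hj
      rw [not_le]
      refine lt_of_lt_of_le hT (le_min ?_ hθw)
      have : 1 ≤ b ^ j := one_le_pow₀ (by linarith)
      nlinarith
    have h2 : ⌊(T - τ) / w⌋₊ = 0 := by
      apply Nat.floor_of_nonpos
      apply div_nonpos_of_nonpos_of_nonneg _ hw.le
      linarith
    rw [hHH, h1, h2]
    omega
  · rw [if_neg (not_lt.2 hT), add_zero]
    rcases lt_or_ge T τ with hTτ | hTτ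
    · have h2 : ⌊(T - τ) / w⌋₊ = 0 := by
        apply Nat.floor_of_nonpos
        apply div_nonpos_of_nonpos_of_nonneg _ hw.le
        linarith
      rw [hHH T, h2, add_zero]
      have hS : (Icc 1 L).filter (fun j => min (b ^ j * θ) τ ≤ T) ⊆ Icc 1 (L - 1) := by
        intro j hj
        obtain ⟨hj1, hj2⟩ := mem_filter.1 hj
        rw [mem_Icc] at hj1 ⊢
        refine ⟨hj1.1, ?_⟩
        by_contra hcon
        have : j = L := by omega
        rw [this, min_eq_right hτL] at hj2
        linarith
      rcases Nat.eq_zero_or_pos k with hk | hk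
      · subst hk
        rw [Nat.cast_zero, mul_zero, sub_zero] at h
        rw [mul_zero, zero_add, hHH T']
        refine le_trans ?_ (Nat.le_add_right _ _)
        unfold lev
        have hsub : insert 1 (((Icc 1 L).filter (fun j => min (b ^ j * θ) τ ≤ T)).image
            (fun j => j + 1)) ⊆ (Icc 1 L).filter (fun j => min (b ^ j * θ) τ ≤ T') := by
          intro j hj
          rw [mem_insert, mem_image] at hj
          rcases hj with rfl | ⟨i, hi, rfl⟩
          · refine mem_filter.2 ⟨mem_Icc.2 ⟨le_rfl, hL⟩, (min_le_left _ _).trans ?_⟩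
            rw [pow_one]
            refine le_trans ?_ h
            exact mul_le_mul_of_nonneg_left hT (by linarith)
          · have hi1 := mem_Icc.1 (hS hi)
            have hi2 := (mem_filter.1 hi).2
            refine mem_filter.2 ⟨mem_Icc.2 ⟨by omega, by omega⟩, (min_le_left _ _).trans ?_⟩
            have hi3 : b ^ i * θ ≤ T := by
              rcases min_le_iff.1 hi2 with h3 | h3
              · exact h3
              · linarith
            rw [pow_succ']
            refine le_trans ?_ h
            rw [mul_assoc]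
            exact mul_le_mul_of_nonneg_left hi3 (by linarith)
        have hc := card_le_card hsub
        rw [card_insert_of_notMem, card_image_of_injective _ (fun a c h => by simpa using h)] at hc
        · omega
        · intro hmem
          obtain ⟨i, hi, hi2⟩ := mem_image.1 hmem
          have := mem_Icc.1 (hS hi)
          omega
      · have h3 : lev b θ τ L T ≤ L - 1 := by
          unfold lev
          refine (card_le_card hS).trans ?_
          simp
        have h4 : L * 1 ≤ L * k := Nat.mul_le_mul_left _ hk
        omega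
    · rw [hHH T, lev_eq hTτ]
      set f := ⌊(T - τ) / w⌋₊ with hf
      have hfle : (f : ℝ) ≤ (T - τ) / w := Nat.floor_le (div_nonneg (by linarith) hw.le)
      have hbT : w ≤ (b - 1) * T := by
        rw [← hτw]
        exact mul_le_mul_of_nonneg_left hTτ hb1.le
      rcases lt_or_ge T' τ with hT' | hT'
      · -- a large drop
        have h1 : (T - τ) * b < w * ((k : ℝ) - 1) := by
          have : T * b - τ * b < (τ + w * k) - τ * b := by linarith
          have h2 : (τ + w * k) - τ * b = w * k - w := by linarith
          linarith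
        have h2 : (f : ℝ) * b < (k : ℝ) - 1 := by
          have h3 : (f : ℝ) * w ≤ T - τ := by rwa [le_div_iff₀ hw] at hfle
          have h4 : (f : ℝ) * w * b ≤ (T - τ) * b := mul_le_mul_of_nonneg_right h3 (by linarith)
          have h5 : w * ((f : ℝ) * b) < w * ((k : ℝ) - 1) := by linarith
          exact lt_of_mul_lt_mul_left h5 hw.le
        have h3 : (2 * f + 1 : ℝ) < k := by
          have : (f : ℝ) * 2 ≤ f * b := mul_le_mul_of_nonneg_left hb (Nat.cast_nonneg _)
          linarith
        have h4 : 2 * f + 1 < k := by exact_mod_cast h3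
        obtain ⟨k', rfl⟩ : ∃ k', k = k' + 1 := ⟨k - 1, by omega⟩
        have h5 : 1 * k' ≤ L * k' := Nat.mul_le_mul_right _ hL
        have h6 : L * (k' + 1) = L * k' + L := by ring
        rw [h6]
        omega
      · rw [hHH T', lev_eq hT']
        set f' := ⌊(T' - τ) / w⌋₊ with hf'
        have h1 : (T - τ) / w + 1 ≤ (T' - τ) / w + k := by
          rw [← sub_nonneg]
          have e : (T' - τ) / w + k - ((T - τ) / w + 1) = (T' - T + w * k - w) / w := by
            field_simp
            ring
          rw [e]
          apply div_nonneg _ hw.le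
          linarith
        have h2 : f + 1 ≤ f' + k := by
          have h3 := Nat.floor_le_floor h1
          rw [Nat.floor_add_one (div_nonneg (by linarith) hw.le),
            Nat.floor_add_natCast (div_nonneg (by linarith) hw.le)] at h3
          exact h3
        have h3 : 1 * k ≤ L * k := Nat.mul_le_mul_right _ hL
        omega

/-- the sum -/
theorem pot_sum (hb : 2 ≤ b) (hθ : 0 < θ) (hw : 0 < w) (hθw : θ ≤ w / (b - 1))
    (hL : 1 ≤ L) (hwL : w ≤ (b - 1) * (b ^ L * θ)) {T : ℕ → ℝ} {k : ℕ → ℕ}
    (h : ∀ m, b * T m - w * k (m + 1) ≤ T (m + 1)) (n : ℕ) :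
    n ≤ L * ∑ m ∈ range n, k (m + 1) + HH b θ w L (T n) +
      ((range n).filter (fun m => T m < θ)).card := by
  have key : ∀ n, n + HH b θ w L (T 0) ≤ L * ∑ m ∈ range n, k (m + 1) + HH b θ w L (T n) +
      ((range n).filter (fun m => T m < θ)).card := by
    intro n
    induction n with
    | zero => simp
    | succ n ih =>
      have h1 := HH_step hb hθ hw hθw hL hwL (h n)
      rw [sum_range_succ, range_add_one, filter_insert]
      split_ifs at h1 ⊢ with h2
      · rw [card_insert_of_notMem (by simp)]
        rw [mul_add]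
        omega
      · rw [mul_add]
        omega
  have := key n
  omega

end

end Pool.Agent.H90.PR
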