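import Pool.Agent.H90.PR.Bad
import Pool.Agent.H90.PR.Pot

/-!
# Exceptional places of products
-/

set_option autoImplicit false
set_option linter.unusedSectionVars false

open Finset

namespace Pool.Agent.H90.PR

open Pool.Agent.H394R2.Ones Pool.Agent.H820R3.DG Pool.Agent.Helper161SP

open PowerSeries (coeff)

/-- digit sums grow faster than the logarithm -/
lemma KK_log {b : ℕ} (hb : 2 ≤ b) {y0 : ℝ} (hy00 : 0 < y0) (hy01 : y0 < 1)
    (halg : IsAlgebraic ℚ y0) (hirr : Irrational y0) (κ : ℝ) (hκ : 0 < κ) :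
    ∃ n0 : ℕ, ∀ n : ℕ, n0 ≤ n → 1 + Real.log ((n : ℝ) + 1) ≤ κ * KK b y0 n := by
  obtain ⟨D, hD, c, hc0, hc1, n1, hK⟩ := KK_pow hb hy00 hy01 halg hirr
  obtain ⟨n2, hn2⟩ := Filter.eventually_atTop.1 (log_small D (κ * c) (by positivity))
  refine ⟨max (max n1 n2) 1, fun n hn => ?_⟩
  have h1 : n1 ≤ n := (le_max_left _ _).trans ((le_max_left _ _).trans hn)
  have h2 : n2 ≤ n := (le_max_right _ _).trans ((le_max_left _ _).trans hn)
  have h3 : (1 : ℝ) ≤ n := by exact_mod_cast (le_max_right _ _).trans hn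
  refine (hn2 n h2).trans ?_
  have hn0 : (0 : ℝ) ≤ n := by linarith
  set s : ℝ := (n : ℝ) ^ ((1 : ℝ) / (D + 2)) with hs
  have hs1 : 1 ≤ s := Real.one_le_rpow h3 (by positivity)
  have hsn : s ^ (D + 2) = n := by
    rw [hs, ← Real.rpow_natCast, ← Real.rpow_mul hn0]
    push_cast
    rw [one_div, inv_mul_cancel₀ (by positivity), Real.rpow_one]
  have h4 : (c * s) ^ D ≤ (KK b y0 n : ℝ) ^ D := by
    refine le_trans ?_ (hK n h1)
    rw [mul_pow, ← hsn]
    have h5 : c ^ D ≤ c ^ 1 := pow_le_pow_of_le_one hc0.le hc1 hD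
    have h6 : s ^ D ≤ s ^ (D + 2) := pow_le_pow_right₀ hs1 (by omega)
    rw [pow_one] at h5
    exact mul_le_mul h5 h6 (by positivity) hc0.le
  have h5 : c * s ≤ KK b y0 n := le_of_pow_le_pow_left₀ (by omega) (Nat.cast_nonneg _) h4
  rw [mul_assoc]
  exact mul_le_mul_of_nonneg_left h5 hκ.le

section
variable {b : ℕ} {ι : Type} [Fintype ι] [DecidableEq ι]

lemma one_le_prod_add (y : ι → ℝ) (hy0 : ∀ i, 0 < y i) (I : Finset ι) :
    1 ≤ ∏ i ∈ I, (1 + y i) := by
  have h : ∏ _i ∈ I, (1 : ℝ) ≤ ∏ i ∈ I, (1 + y i) :=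
    prod_le_prod (fun _ _ => zero_le_one) fun i _ => by have := hy0 i; linarith
  rwa [prod_const_one] at h

lemma tl_FI_mono (hb : 2 ≤ b) (y : ι → ℝ) (hy0 : ∀ i, 0 < y i) (hy1 : ∀ i, y i < 1)
    {I J : Finset ι} (h : I ⊆ J) (n : ℕ) :
    tl b (FI b y I) (∏ i ∈ I, (1 + y i)) n ≤ tl b (FI b y J) (∏ i ∈ J, (1 + y i)) n := by
  have h1 : FI b y J = FI b y (J \ I) * FI b y I := by
    unfold FI
    exact (prod_sdiff h).symm
  have h2 : ∏ i ∈ J, (1 + y i) = (∏ i ∈ J \ I, (1 + y i)) * ∏ i ∈ I, (1 + y i) :=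
    (prod_sdiff h).symm
  rw [h1, h2, tl_mul]
  have h3 := tl_FI_nonneg hb y hy0 hy1 I n
  have h4 := one_le_prod_add y hy0 (J \ I)
  have h5 : 0 ≤ ∑ p ∈ antidiagonal n, ((coeff p.1 (FI b y I) : ℕ) : ℝ) *
      tl b (FI b y (J \ I)) (∏ i ∈ J \ I, (1 + y i)) p.2 :=
    sum_nonneg fun p _ => mul_nonneg (Nat.cast_nonneg _) (tl_FI_nonneg hb y hy0 hy1 _ _)
  nlinarith

/-- the tail of the product of all numbers -/
noncomputable def TF (b : ℕ) (y : ι → ℝ) (m : ℕ) : ℝ := tl b (FI b y univ) (∏ i, (1 + y i)) m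

/-- the tail of the product of all numbers but one -/
noncomputable def VF (b : ℕ) (y : ι → ℝ) (i : ι) (m : ℕ) : ℝ :=
  tl b (FI b y (univ.erase i)) (∏ j ∈ univ.erase i, (1 + y j)) m

lemma TF_eq (y : ι → ℝ) (i : ι) (m : ℕ) :
    TF b y m = TG b (y i) (FI b y (univ.erase i)) (∏ j ∈ univ.erase i, (1 + y j)) m := by
  unfold TF TG
  have h1 : FI b y univ = Fy b (y i) * FI b y (univ.erase i) := by
    unfold FI
    exact (mul_prod_erase univ (fun j => Fy b (y j)) (mem_univ i)).symm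
  have h2 : ∏ j, (1 + y j) = (1 + y i) * ∏ j ∈ univ.erase i, (1 + y j) :=
    (mul_prod_erase univ _ (mem_univ i)).symm
  rw [h1, h2]

lemma TF_succ (y : ι → ℝ) (m : ℕ) :
    TF b y (m + 1) = b * TF b y m - (coeff (m + 1) (FI b y univ) : ℕ) := tl_succ _ _ _

lemma TF_nonneg (hb : 2 ≤ b) (y : ι → ℝ) (hy0 : ∀ i, 0 < y i) (hy1 : ∀ i, y i < 1) (m : ℕ) :
    0 ≤ TF b y m := tl_FI_nonneg hb y hy0 hy1 _ _

lemma VF_nonneg (hb : 2 ≤ b) (y : ι → ℝ) (hy0 : ∀ i, 0 < y i) (hy1 : ∀ i, y i < 1) (i : ι)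
    (m : ℕ) : 0 ≤ VF b y i m := tl_FI_nonneg hb y hy0 hy1 _ _

/-- the sum of the tails of the partial products -/
noncomputable def UF (b : ℕ) (y : ι → ℝ) (p : Finset ι → ℤ) (m : ℕ) : ℝ :=
  ∑ I ∈ univ.erase (univ : Finset ι), (p I : ℝ) * tl b (FI b y I) (∏ i ∈ I, (1 + y i)) m

/-- the integer of the relation -/
lemma rel_int' (y : ι → ℝ) (q : ℕ) (p : Finset ι → ℤ)
    (hrel : (q : ℝ) * ∏ i, (1 + y i) =
      ∑ I ∈ univ.erase (univ : Finset ι), (p I : ℝ) * ∏ i ∈ I, (1 + y i))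
    (m : ℕ) : ∃ Z : ℤ, (Z : ℝ) = q * TF b y m - UF b y p m := by
  refine ⟨∑ I ∈ univ.erase (univ : Finset ι), p I * (coeff m (FI b y I * EE b) : ℕ) -
    (q : ℤ) * (coeff m (FI b y univ * EE b) : ℕ), ?_⟩
  unfold TF UF tl
  push_cast
  simp only [mul_sub, sum_sub_distrib]
  have h1 : ∑ I ∈ univ.erase (univ : Finset ι), (p I : ℝ) * ((∏ i ∈ I, (1 + y i)) * (b : ℝ) ^ m) =
      (q : ℝ) * ((∏ i, (1 + y i)) * (b : ℝ) ^ m) := by
    have h2 : ∀ I : Finset ι, (p I : ℝ) * ((∏ i ∈ I, (1 + y i)) * (b : ℝ) ^ m) =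
        (p I : ℝ) * (∏ i ∈ I, (1 + y i)) * (b : ℝ) ^ m := fun I => by ring
    simp only [h2]
    rw [← sum_mul, ← hrel]
    ring
  rw [h1]
  ring

/-- the sum of the absolute values of the coefficients -/
noncomputable def cp (p : Finset ι → ℤ) : ℝ :=
  ∑ I ∈ univ.erase (univ : Finset ι), |(p I : ℝ)|

lemma cp_nonneg (p : Finset ι → ℤ) : 0 ≤ cp p := sum_nonneg fun _ _ => abs_nonneg _

lemma UF_le (hb : 2 ≤ b) (y : ι → ℝ) (hy0 : ∀ i, 0 < y i) (hy1 : ∀ i, y i < 1)
    (p : Finset ι → ℤ) (m : ℕ) : |UF b y p m| ≤ cp p * ∑ i, VF b y i m := by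
  unfold UF cp
  rw [sum_mul]
  refine (abs_sum_le_sum_abs _ _).trans (sum_le_sum fun I hI => ?_)
  rw [abs_mul, abs_of_nonneg (tl_FI_nonneg hb y hy0 hy1 I m)]
  refine mul_le_mul_of_nonneg_left ?_ (abs_nonneg _)
  have hne : I ≠ univ := ne_of_mem_erase hI
  obtain ⟨i, hi⟩ : ∃ i, i ∉ I := by
    by_contra hcon
    push Not at hcon
    exact hne (eq_univ_iff_forall.2 hcon)
  refine (tl_FI_mono hb y hy0 hy1 (J := univ.erase i) (fun j hj => ?_) m).trans ?_
  · rw [mem_erase]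
    exact ⟨fun h => hi (h ▸ hj), mem_univ _⟩
  · exact single_le_sum (f := fun i => VF b y i m) (fun i _ => VF_nonneg hb y hy0 hy1 i m)
      (mem_univ i)

lemma exists_large (y : ι → ℝ) [Nonempty ι] (m : ℕ) :
    ∃ i, ∑ j, VF b y j m ≤ (Fintype.card ι : ℝ) * VF b y i m := by
  obtain ⟨i, -, hi⟩ := exists_max_image univ (fun i => VF b y i m) univ_nonempty
  refine ⟨i, ?_⟩
  calc ∑ j, VF b y j m ≤ ∑ _j : ι, VF b y i m := sum_le_sum fun j hj => hi j hj
    _ = _ := by rw [sum_const, card_univ, nsmul_eq_mul]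

/-- places with a small tail or a large error are exceptional for one of the factors -/
lemma bad_or (hb : 2 ≤ b) [Nonempty ι] (y : ι → ℝ) (hy0 : ∀ i, 0 < y i) (hy1 : ∀ i, y i < 1)
    (q : ℕ) (hq : 1 ≤ q) (p : Finset ι → ℤ)
    (hrel : (q : ℝ) * ∏ i, (1 + y i) =
      ∑ I ∈ univ.erase (univ : Finset ι), (p I : ℝ) * ∏ i ∈ I, (1 + y i))
    {η : ℝ} (hη0 : 0 < η) (hη1 : η ≤ 1) (m : ℕ)
    (h : η ≤ |UF b y p m| ∨ q * TF b y m < 1 - η) :
    ∃ i, TF b y m ≤ (cp p * Fintype.card ι / η) * VF b y i m ∨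
      1 ≤ (cp p * Fintype.card ι / η) * VF b y i m := by
  obtain ⟨i, hi⟩ := exists_large (b := b) y m
  refine ⟨i, ?_⟩
  have hU := UF_le hb y hy0 hy1 p m
  have hcp := cp_nonneg p
  have hT := TF_nonneg hb y hy0 hy1 m
  have hV := VF_nonneg hb y hy0 hy1 i m
  have hU2 : |UF b y p m| ≤ cp p * Fintype.card ι * VF b y i m := by
    refine hU.trans ?_
    rw [mul_assoc]
    exact mul_le_mul_of_nonneg_left hi hcp
  have h3 : 0 ≤ cp p * Fintype.card ι * VF b y i m := by positivity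
  rcases le_or_gt η |UF b y p m| with h1 | h1
  · right
    rw [div_mul_eq_mul_div, le_div_iff₀ hη0]
    linarith
  · left
    have h2 : q * TF b y m < 1 - η := by
      rcases h with h | h
      · linarith
      · exact h
    obtain ⟨Z, hZ⟩ := rel_int' (b := b) y q p hrel m
    have h4 := abs_lt.1 h1
    have hZ1 : (Z : ℝ) < 1 := by rw [hZ]; linarith
    have hZ2 : Z < 1 := by exact_mod_cast hZ1
    have hZ3 : Z ≤ 0 := by omega
    have hZ4 : (Z : ℝ) ≤ 0 := by exact_mod_cast hZ3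
    rw [hZ] at hZ4
    have hqR : (1 : ℝ) ≤ q := by exact_mod_cast hq
    have h5 : TF b y m ≤ q * TF b y m := by nlinarith
    have h6 : TF b y m ≤ cp p * Fintype.card ι * VF b y i m := by
      have := le_abs_self (UF b y p m)
      linarith
    refine h6.trans ?_
    rw [div_mul_eq_mul_div, le_div_iff₀ hη0]
    nlinarith

open Classical in
/-- few exceptional places, if the product of the digit sums is small -/
theorem core (hb : 2 ≤ b) (hcard : 2 ≤ Fintype.card ι) (y : ι → ℝ) (hy0 : ∀ i, 0 < y i)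
    (hy1 : ∀ i, y i < 1) (halg : ∀ i, IsAlgebraic ℚ (y i)) (hirr : ∀ i, Irrational (y i))
    (q : ℕ) (hq : 1 ≤ q) (p : Finset ι → ℤ)
    (hrel : (q : ℝ) * ∏ i, (1 + y i) =
      ∑ I ∈ univ.erase (univ : Finset ι), (p I : ℝ) * ∏ i ∈ I, (1 + y i))
    {η : ℝ} (hη0 : 0 < η) (hη1 : η ≤ 1) {C0 : ℝ} (hC0 : 0 ≤ C0) {δ : ℝ} (hδ : 0 < δ) :
    ∃ n0 : ℕ, ∀ n : ℕ, n0 ≤ n → ((∏ i, KK b (y i) n : ℕ) : ℝ) ≤ C0 * n →
      (((range n).filter (fun m => η ≤ |UF b y p m| ∨ q * TF b y m < 1 - η)).card : ℝ) ≤ δ * n ∧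
      TF b y n ≤ δ * n := by
  have hne : Nonempty ι := Fintype.card_pos_iff.1 (by omega)
  have hb2 : (2 : ℝ) ≤ b := by exact_mod_cast hb
  set D : ℝ := (Fintype.card ι : ℝ) with hD
  have hD1 : 1 ≤ D := by rw [hD]; exact_mod_cast (by omega : 1 ≤ Fintype.card ι)
  set c : ℝ := cp p * D / η with hc
  have hc0 : 0 ≤ c := by have := cp_nonneg p; positivity
  -- the exceptional places for one factor
  set δ1 : ℝ := min (δ / (2 * D)) 1 with hδ1
  have hδ10 : 0 < δ1 := lt_min (by positivity) one_pos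
  have hδ11 : δ1 ≤ 1 := min_le_right _ _
  have hone : ∀ i, ∃ C : ℝ, 0 ≤ C ∧ ∀ n : ℕ,
      (((range n).filter (fun m => TF b y m ≤ c * VF b y i m ∨ 1 ≤ c * VF b y i m)).card : ℝ) ≤
        C * (1 + Real.log ((n : ℝ) + 1)) *
          ((((range n).filter (fun m => 1 ≤ coeff m (FI b y (univ.erase i)))).card : ℝ) + 1) +
          δ1 * n := by
    intro i
    obtain ⟨i1, hi1⟩ : ∃ i1, i1 ≠ i := by
      have : Nontrivial ι := Fintype.one_lt_card_iff_nontrivial.1 (by omega)
      exact exists_ne i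
    obtain ⟨L1, hgap⟩ := gap hb (hy0 i1) (halg i1) (hirr i1) (1 / 2) (by norm_num) (by norm_num)
    have h := card_gen hb (hy0 i) (hy1 i) (halg i) (hirr i) (FI b y (univ.erase i))
      (∏ j ∈ univ.erase i, (1 + y j)) (coeff_zero_FI _ _).ge
      (fun n => tl_FI_nonneg hb y hy0 hy1 _ n)
      ((3 : ℝ) ^ (univ.erase i).card * (b : ℝ) ^ (univ.erase i).card) (univ.erase i).card (by
        intro n
        refine (tl_FI_le hb y hy0 hy1 (univ.erase i) n).trans ?_
        rw [mul_assoc]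
        refine mul_le_mul_of_nonneg_left ?_ (by positivity)
        rw [← mul_pow]
        push_cast
        calc ∏ j ∈ univ.erase i, (KK b (y j) n : ℝ) ≤ ∏ j ∈ univ.erase i, ((b : ℝ) * (n + 1)) := by
              refine prod_le_prod (fun _ _ => Nat.cast_nonneg _) fun j _ => ?_
              have h6 := KK_le (y := y j) hb n
              exact_mod_cast h6
          _ = _ := by rw [prod_const]) L1 (by
        intro n hn
        obtain ⟨k, hk1, hk2, hk3⟩ := hgap n hn
        refine ⟨k, hk1, hk2, ?_⟩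
        refine le_trans ?_ (coeff_FI_mono y (I := {i1}) (fun j hj => by
          rw [mem_singleton] at hj
          rw [hj, mem_erase]
          exact ⟨hi1, mem_univ _⟩) k)
        unfold FI
        rw [prod_singleton, Fy, PowerSeries.coeff_mk]
        obtain ⟨k', rfl⟩ : ∃ k', k = k' + 1 := ⟨k - 1, by omega⟩
        rw [xx_succ]
        exact hk3) c hc0 δ1 hδ10 hδ11
    obtain ⟨C, hC, h2⟩ := h
    refine ⟨C, hC, fun n => ?_⟩
    have h3 := h2 n
    simp only [← TF_eq y i] at h3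
    exact h3
  choose C hC hcnt using hone
  set Cm : ℝ := ∑ i, C i with hCm
  have hCm0 : 0 ≤ Cm := sum_nonneg fun i _ => hC i
  have hCi : ∀ i, C i ≤ Cm := fun i => single_le_sum (f := C) (fun i _ => hC i) (mem_univ i)
  -- growth of the digit sums
  set κ : ℝ := δ / (2 * D * ((Cm + 3 ^ (Fintype.card ι + 1)) * 2 * (C0 + 1))) with hκ
  have hκ0 : 0 < κ := by positivity
  have hKlog : ∀ i, ∃ n0 : ℕ, ∀ n : ℕ, n0 ≤ n →
      1 + Real.log ((n : ℝ) + 1) ≤ κ * KK b (y i) n := fun i =>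
    KK_log hb (hy0 i) (hy1 i) (halg i) (hirr i) κ hκ0
  choose N0 hN0 using hKlog
  refine ⟨univ.sup N0, fun n hn hprod => ?_⟩
  have hn0 : (0 : ℝ) ≤ n := Nat.cast_nonneg _
  set ℓ : ℝ := 1 + Real.log ((n : ℝ) + 1) with hℓ
  have hℓ1 : 1 ≤ ℓ := by
    have := Real.log_nonneg (show (1 : ℝ) ≤ (n : ℝ) + 1 by linarith)
    linarith
  have hK : ∀ i, ℓ ≤ κ * KK b (y i) n := fun i =>
    hN0 i n ((le_sup (mem_univ i)).trans hn)
  -- the product without one factor
  set Q : ι → ℝ := fun i => ((∏ j ∈ univ.erase i, KK b (y j) n : ℕ) : ℝ) with hQ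
  have hQ1 : ∀ i, 1 ≤ Q i := fun i => by
    simp only [hQ]
    exact_mod_cast prod_KK_pos (b := b) y hy0 hy1 _ n
  have hQ2 : ∀ i, ℓ * Q i ≤ κ * (C0 * n) := by
    intro i
    have h1 : ((∏ i, KK b (y i) n : ℕ) : ℝ) = KK b (y i) n * Q i := by
      simp only [hQ]
      rw [← mul_prod_erase univ _ (mem_univ i)]
      push_cast
      rfl
    calc ℓ * Q i ≤ κ * KK b (y i) n * Q i := mul_le_mul_of_nonneg_right (hK i) (by linarith [hQ1 i])
      _ = κ * ((∏ i, KK b (y i) n : ℕ) : ℝ) := by rw [h1]; ring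
      _ ≤ κ * (C0 * n) := mul_le_mul_of_nonneg_left hprod hκ0.le
  constructor
  · have hsub : (range n).filter (fun m => η ≤ |UF b y p m| ∨ q * TF b y m < 1 - η) ⊆
        univ.biUnion fun i => (range n).filter (fun m => TF b y m ≤ c * VF b y i m ∨
          1 ≤ c * VF b y i m) := by
      intro m hm
      obtain ⟨hm1, hm2⟩ := mem_filter.1 hm
      obtain ⟨i, hi⟩ := bad_or hb y hy0 hy1 q hq p hrel hη0 hη1 m hm2
      rw [mem_biUnion]
      exact ⟨i, mem_univ i, mem_filter.2 ⟨hm1, hi⟩⟩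
    have h1 := (card_le_card hsub).trans card_biUnion_le
    have h2 : (((range n).filter (fun m => η ≤ |UF b y p m| ∨ q * TF b y m < 1 - η)).card : ℝ) ≤
        ∑ i, (((range n).filter (fun m => TF b y m ≤ c * VF b y i m ∨
          1 ≤ c * VF b y i m)).card : ℝ) := by exact_mod_cast h1
    refine h2.trans ?_
    have h3 : ∀ i ∈ (univ : Finset ι), (((range n).filter (fun m => TF b y m ≤ c * VF b y i m ∨
          1 ≤ c * VF b y i m)).card : ℝ) ≤ δ / D * n := by
      intro i _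
      refine (hcnt i n).trans ?_
      have h4 : ((((range n).filter (fun m => 1 ≤ coeff m (FI b y (univ.erase i)))).card : ℝ) + 1) ≤
          2 * Q i := by
        have h5 : ((range n).filter (fun m => 1 ≤ coeff m (FI b y (univ.erase i)))).card ≤
            ∏ j ∈ univ.erase i, KK b (y j) n := by
          refine le_trans ?_ (SF_FI y (univ.erase i) n)
          rw [SF_eq, card_filter]
          refine le_trans (sum_le_sum (g := fun m => coeff m (FI b y (univ.erase i)))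
            fun m _ => ?_) (sum_le_sum_of_subset (range_mono (by omega)))
          split_ifs with h
          · exact h
          · exact Nat.zero_le _
        have h6 : (((range n).filter (fun m => 1 ≤ coeff m (FI b y (univ.erase i)))).card : ℝ) ≤
            Q i := by
          simp only [hQ]
          exact_mod_cast h5
        have := hQ1 i
        linarith
      have h5 : C i * ℓ * ((((range n).filter
          (fun m => 1 ≤ coeff m (FI b y (univ.erase i)))).card : ℝ) + 1) ≤ δ / (2 * D) * n := by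
        calc C i * ℓ * ((((range n).filter
              (fun m => 1 ≤ coeff m (FI b y (univ.erase i)))).card : ℝ) + 1) ≤
              C i * ℓ * (2 * Q i) := mul_le_mul_of_nonneg_left h4 (mul_nonneg (hC i) (by linarith))
          _ = 2 * C i * (ℓ * Q i) := by ring
          _ ≤ 2 * C i * (κ * (C0 * n)) :=
              mul_le_mul_of_nonneg_left (hQ2 i) (by have := hC i; positivity)
          _ ≤ 2 * (Cm + 3 ^ (Fintype.card ι + 1)) * (κ * ((C0 + 1) * n)) := by
              have h6 : C i ≤ Cm + 3 ^ (Fintype.card ι + 1) := by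
                have := hCi i
                have : (0 : ℝ) ≤ 3 ^ (Fintype.card ι + 1) := by positivity
                linarith
              gcongr
              linarith
          _ = δ / (2 * D) * n := by
              rw [hκ]
              field_simp
      have h6 : δ1 * n ≤ δ / (2 * D) * n := mul_le_mul_of_nonneg_right (min_le_left _ _) hn0
      have h7 : δ / D * n = δ / (2 * D) * n + δ / (2 * D) * n := by
        field_simp
        ring
      rw [h7]
      linarith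
    refine (sum_le_sum h3).trans (le_of_eq ?_)
    rw [sum_const, card_univ, nsmul_eq_mul, ← hD]
    field_simp
  · obtain ⟨i⟩ := hne
    rw [TF_eq y i]
    unfold TG
    have h1 := tl_insert_le hb (hy0 i) (hy1 i) (FI b y (univ.erase i))
      (∏ j ∈ univ.erase i, (1 + y j)) n (tl_FI_nonneg hb y hy0 hy1 _ n)
    refine h1.trans ?_
    have h2 : ((SF (FI b y (univ.erase i)) n : ℕ) : ℝ) ≤ Q i := by
      simp only [hQ]
      exact_mod_cast SF_FI y (univ.erase i) n
    have h3 := tl_FI_le hb y hy0 hy1 (univ.erase i) n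
    have h4 : (3 : ℝ) ^ (univ.erase i).card ≤ 3 ^ Fintype.card ι :=
      pow_le_pow_right₀ (by norm_num) (card_le_univ _)
    have h5 : tl b (FI b y (univ.erase i)) (∏ j ∈ univ.erase i, (1 + y j)) n ≤
        3 ^ Fintype.card ι * Q i := by
      refine h3.trans ?_
      exact mul_le_mul_of_nonneg_right h4 (Nat.cast_nonneg _)
    have h6 : (1 : ℝ) ≤ 3 ^ Fintype.card ι := one_le_pow₀ (by norm_num)
    have h7 : ((SF (FI b y (univ.erase i)) n : ℕ) : ℝ) +
        2 * tl b (FI b y (univ.erase i)) (∏ j ∈ univ.erase i, (1 + y j)) n ≤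
        3 ^ (Fintype.card ι + 1) * (ℓ * Q i) := by
      have h8 : Q i ≤ 3 ^ Fintype.card ι * Q i := by nlinarith [hQ1 i]
      have h9 : 3 ^ (Fintype.card ι + 1) * Q i ≤ 3 ^ (Fintype.card ι + 1) * (ℓ * Q i) := by
        refine mul_le_mul_of_nonneg_left ?_ (by positivity)
        nlinarith [hQ1 i]
      have h10 : (3 : ℝ) ^ (Fintype.card ι + 1) * Q i = 3 * (3 ^ Fintype.card ι * Q i) := by
        rw [pow_succ]; ring
      linarith
    refine h7.trans ?_
    calc 3 ^ (Fintype.card ι + 1) * (ℓ * Q i) ≤ 3 ^ (Fintype.card ι + 1) * (κ * (C0 * n)) :=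
          mul_le_mul_of_nonneg_left (hQ2 i) (by positivity)
      _ ≤ 2 * (Cm + 3 ^ (Fintype.card ι + 1)) * (κ * ((C0 + 1) * n)) := by
          have h8 : (3 : ℝ) ^ (Fintype.card ι + 1) ≤ 2 * (Cm + 3 ^ (Fintype.card ι + 1)) := by
            have : (0 : ℝ) ≤ 3 ^ (Fintype.card ι + 1) := by positivity
            linarith
          gcongr
          linarith
      _ = δ / (2 * D) * n := by
          rw [hκ]
          field_simp
      _ ≤ δ * n := by
          apply mul_le_mul_of_nonneg_right _ hn0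
          rw [div_le_iff₀ (by positivity)]
          nlinarith

end

end Pool.Agent.H90.PR
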