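import Pool.Graph.R_seed8.H820R3.DG.Real
import Pool.Agent.H90.PR.Win

/-!
# Nonzero digits of algebraic numbers of degree `D`
-/

set_option autoImplicit false
set_option linter.unusedSectionVars false
set_option linter.unusedVariables false

open Finset

namespace Pool.Agent.H90.PR

open Pool.Agent.H394R2.Ones Pool.Agent.H820R3.DG

/-- the indicator of the nonzero digits of `1 + y` -/
noncomputable def ee (b : ℕ) (y : ℝ) (i : ℕ) : ℕ := if xx b y i = 0 then 0 else 1

section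
variable {b : ℕ} {y : ℝ}

lemma xx_le_ee (hb : 2 ≤ b) (i : ℕ) : xx b y i ≤ (b - 1) * ee b y i := by
  unfold ee
  split_ifs with h
  · rw [h]; omega
  · rcases Nat.eq_zero_or_pos i with h0 | h0
    · subst h0
      rw [xx_zero]
      omega
    · obtain ⟨k, rfl⟩ : ∃ k, i = k + 1 := ⟨i - 1, by omega⟩
      rw [xx_succ, mul_one]
      unfold Pool.Agent.H394R2.Ones.x
      have := Nat.mod_lt (B b y (k + 1)) (show 0 < b by omega)
      omega

lemma ee_sum (n : ℕ) : ∑ i ∈ range (n + 1), ee b y i = cnt b y n + 1 := by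
  rw [sum_range_succ']
  unfold ee cnt
  rw [xx_zero, if_neg one_ne_zero, card_filter]
  congr 1
  refine sum_congr rfl fun i _ => ?_
  rw [xx_succ]
  by_cases h : x b y (i + 1) = 0
  · rw [if_pos h, if_neg (not_not.2 h)]
  · rw [if_neg h, if_pos h]

lemma rr_le (f g : ℕ → ℕ) (c : ℕ) (h : ∀ i, f i ≤ c * g i) (d m : ℕ) :
    rr f d m ≤ c ^ d * rr g d m := by
  induction d generalizing m with
  | zero => simp [rr]
  | succ d ih =>
    rw [rr_succ, rr_succ, mul_sum]
    refine sum_le_sum fun p _ => ?_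
    calc f p.1 * rr f d p.2 ≤ (c * g p.1) * (c ^ d * rr g d p.2) := Nat.mul_le_mul (h _) (ih _)
      _ = _ := by rw [pow_succ]; ring

lemma rr_sum' (f : ℕ → ℕ) (d n : ℕ) :
    ∑ m ∈ range (n + 1), rr f d m ≤ (∑ i ∈ range (n + 1), f i) ^ d := by
  induction d with
  | zero =>
    rw [sum_range_succ']
    simp [rr]
  | succ d ih =>
    have h1 := pair_sum n (fun i j => f i * rr f d j)
    have h2 : ∑ m ∈ range (n + 1), rr f (d + 1) m ≤
        ∑ p ∈ range (n + 1) ×ˢ range (n + 1), f p.1 * rr f d p.2 := by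
      rw [h1]
      simp only [rr_succ]
      exact Nat.le_add_right _ _
    refine h2.trans ?_
    rw [sum_product]
    simp only [← mul_sum]
    rw [← sum_mul, pow_succ, mul_comm ((∑ i ∈ range (n + 1), f i) ^ d)]
    exact Nat.mul_le_mul le_rfl ih

/-- the number of unordered sums of places -/
noncomputable def kk (b : ℕ) (y : ℝ) (d m : ℕ) : ℕ :=
  (rr (ee b y) (d + 2) m + ((d + 2).factorial - 1)) / (d + 2).factorial

lemma le_kk (d m : ℕ) : rr (ee b y) (d + 2) m ≤ (d + 2).factorial * kk b y d m := by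
  unfold kk
  set a := rr (ee b y) (d + 2) m
  have hc := Nat.factorial_pos (d + 2)
  set c := (d + 2).factorial
  have h := Nat.lt_mul_div_succ (a + (c - 1)) hc
  rw [mul_add, mul_one] at h
  omega

open Classical in
lemma kk_le (d m : ℕ) : (d + 2).factorial * kk b y d m ≤ rr (ee b y) (d + 2) m +
    (d + 2).factorial * (if (d + 2).factorial ∣ rr (ee b y) (d + 2) m then 0 else 1) := by
  unfold kk
  set a := rr (ee b y) (d + 2) m
  have hc := Nat.factorial_pos (d + 2)
  set c := (d + 2).factorial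
  split_ifs with h
  · obtain ⟨q, hq⟩ := h
    rw [hq, Nat.mul_add_div hc, Nat.div_eq_of_lt (by omega), add_zero]
    omega
  · have := Nat.mul_div_le (a + (c - 1)) c
    omega

open Classical in
lemma kk_sum (d n : ℕ) : (d + 2).factorial * ∑ m ∈ range (n + 1), kk b y d m ≤
    (cnt b y n + 1) ^ (d + 2) + (d + 2).factorial * (cnt b y n + 1) ^ (d + 1) := by
  have h1 : (d + 2).factorial * ∑ m ∈ range (n + 1), kk b y d m ≤
      ∑ m ∈ range (n + 1), rr (ee b y) (d + 2) m + (d + 2).factorial *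
        ((range (n + 1)).filter (fun m => ¬ (d + 2).factorial ∣ rr (ee b y) (d + 2) m)).card := by
    rw [mul_sum, card_filter, mul_sum, ← sum_add_distrib]
    refine sum_le_sum fun m _ => ?_
    refine (kk_le d m).trans (le_of_eq ?_)
    congr 2
    by_cases h : (d + 2).factorial ∣ rr (ee b y) (d + 2) m
    · rw [if_pos h, if_neg (not_not.2 h)]
    · rw [if_neg h, if_pos h]
  refine h1.trans (Nat.add_le_add ?_ (Nat.mul_le_mul_left _ ?_))
  · rw [← ee_sum]
    exact rr_sum' _ _ _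
  · have hsub : (range (n + 1)).filter (fun m => ¬ (d + 2).factorial ∣ rr (ee b y) (d + 2) m) ⊆
        (((range (n + 1)).filter (fun i => 1 ≤ ee b y i)) ×ˢ
          ((range (n + 1)).filter (fun j => 1 ≤ rr (ee b y) d j))).image
          (fun p : ℕ × ℕ => 2 * p.1 + p.2) := by
      intro m hm
      obtain ⟨hm1, hm2⟩ := mem_filter.mp hm
      have hm3 := mem_range.mp hm1
      have h2 : ∃ i j, 2 * i + j = m ∧ 1 ≤ ee b y i ∧ rr (ee b y) d j ≠ 0 := by
        by_contra hcon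
        push Not at hcon
        exact hm2 (Pool.Agent.H726R3.FactDvd.factStmt (ee b y) d m fun i j h3 h4 => hcon i j h3 h4)
      obtain ⟨i, j, h3, h4, h5⟩ := h2
      refine mem_image.mpr ⟨(i, j), mem_product.mpr ⟨?_, ?_⟩, h3⟩
      · exact mem_filter.mpr ⟨mem_range.mpr (by omega), h4⟩
      · exact mem_filter.mpr ⟨mem_range.mpr (by omega), Nat.one_le_iff_ne_zero.mpr h5⟩
    refine (card_le_card hsub).trans (card_image_le.trans ?_)
    rw [card_product, pow_succ, mul_comm ((cnt b y n + 1) ^ d)]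
    refine Nat.mul_le_mul ?_ ?_
    · rw [← ee_sum]
      exact card_le_sum_filter (n + 1) _
    · rw [← ee_sum]
      exact (card_le_sum_filter (n + 1) _).trans (rr_sum' _ d n)

/-- congruence over several clean places -/
lemma ZZ_mod_many (d : ℕ) (c : ℕ → ℤ) (c' : ℝ) (N v : ℕ)
    (h : ∀ j, j ≤ v → ¬ Dirty b y d c' (N + j)) :
    ∀ j, j ≤ v → ZZ c (d + 2) (xx b y) b (N + j) ≡ (b : ℤ) ^ j * ZZ c (d + 2) (xx b y) b N
      [ZMOD c (d + 2) * ((d + 2).factorial : ℤ)] := by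
  intro j
  induction j with
  | zero => intro _; simp
  | succ j ih =>
    intro hj
    have h1 := ih (by omega)
    have h2 := h (j + 1) hj
    unfold Dirty at h2
    push Not at h2
    have h3 := ZZ_mod (b := b) (y := y) d c (N + j) (by
      rw [add_assoc]; omega) (by rw [add_assoc]; exact h2.2.2)
    rw [← add_assoc]
    refine h3.trans ((h1.mul_left (b : ℤ)).trans ?_)
    rw [pow_succ]
    have : (b : ℤ) * ((b : ℤ) ^ j * ZZ c (d + 2) (xx b y) b N) =
      (b : ℤ) ^ j * b * ZZ c (d + 2) (xx b y) b N := by ring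
    rw [this]

/-- places after a clean block, with small lower tails -/
lemma good_ge (hb : 2 ≤ b) (hy0 : 0 < y) (hy1 : y < 1) (d : ℕ) (c : ℕ → ℤ)
    (hP : ∑ k ∈ range (d + 2 + 1), (c k : ℝ) * (1 + y) ^ k = 0) (hc : 0 < c (d + 2))
    (g v : ℕ) (hg0 : 1 ≤ g) (hg1 : g ∣ b ^ v) (hg2 : (g : ℤ) ∣ c (d + 2) * ((d + 2).factorial : ℤ))
    (η' : ℝ) (m : ℕ) (hm : v ≤ m)
    (h : ∀ j, j ≤ v → ¬ Dirty b y d (∑ k ∈ range (d + 2), |(c k : ℝ)|) (m - j))
    (hs : TT b y (d + 1) m < η') :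
    (g : ℝ) - (∑ k ∈ range (d + 2), |(c k : ℝ)|) * η' ≤ c (d + 2) * TT b y (d + 2) m := by
  set c' := ∑ k ∈ range (d + 2), |(c k : ℝ)| with hc'
  have hc'0 : 0 ≤ c' := sum_nonneg fun _ _ => abs_nonneg _
  have h1 := ZZ_mod_many (b := b) (y := y) d c c' (m - v) v (by
    intro j hj
    have := h (v - j) (by omega)
    rwa [show m - (v - j) = m - v + j by omega] at this) v le_rfl
  rw [Nat.sub_add_cancel hm] at h1
  have hdvd : (g : ℤ) ∣ ZZ c (d + 2) (xx b y) b m := by
    have h2 : (g : ℤ) ∣ (b : ℤ) ^ v * ZZ c (d + 2) (xx b y) b (m - v) := by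
      refine Dvd.dvd.mul_right ?_ _
      exact_mod_cast hg1
    have h3 := h1.dvd
    have h4 : (g : ℤ) ∣ (b : ℤ) ^ v * ZZ c (d + 2) (xx b y) b (m - v) -
        ZZ c (d + 2) (xx b y) b m := hg2.trans h3
    have h5 := dvd_sub h2 h4
    rwa [sub_sub_cancel] at h5
  have h2 := h 0 (Nat.zero_le _)
  rw [Nat.sub_zero] at h2
  unfold Dirty at h2
  push Not at h2
  have h3 := ZZ_pos hb hy0 hy1 d c hP hc m (not_le.mpr h2.1)
  have h4 := Int.le_of_dvd (by omega) hdvd
  have h5 : (g : ℝ) ≤ ZZ c (d + 2) (xx b y) b m := by exact_mod_cast h4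
  have h6 := ZZ_le hb hy0 hy1 d c hP m
  rw [← hc'] at h6
  have h7 := mul_le_mul_of_nonneg_left hs.le hc'0
  linarith

open Classical in
/-- the theorem for numbers in `(0, 1)` -/
theorem degY (hb : 2 ≤ b) (hy0 : 0 < y) (hy1 : y < 1)
    (halg : IsAlgebraic ℚ y) (hirr : Irrational y) (d : ℕ) (c : ℕ → ℤ)
    (hP : ∑ k ∈ range (d + 2 + 1), (c k : ℝ) * (1 + y) ^ k = 0) (a : ℕ) (ha : 1 ≤ a)
    (hc : c (d + 2) = a) (g v h : ℕ) (hg0 : 1 ≤ g) (hg1 : g ∣ b ^ v)
    (hgh : a * (d + 2).factorial = g * h) (L : ℕ) (hL1 : 1 ≤ L)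
    (hL : h * (b - 1) ^ (d + 1) < b ^ L) (ε : ℝ) (hε : 0 < ε) :
    ∃ n0 : ℕ, ∀ n : ℕ, n0 ≤ n →
      (((d + 2).factorial : ℝ) / L - ε) * n ≤ (cnt b y n : ℝ) ^ (d + 2) := by
  have hb2 : (2 : ℝ) ≤ b := by exact_mod_cast hb
  have hb1 : 0 < (b : ℝ) - 1 := by linarith
  have haR : (1 : ℝ) ≤ a := by exact_mod_cast ha
  have hgR : (1 : ℝ) ≤ g := by exact_mod_cast hg0
  have hLR : (1 : ℝ) ≤ L := by exact_mod_cast hL1
  have hFpos := Nat.factorial_pos (d + 2)
  set F : ℝ := ((d + 2).factorial : ℝ) with hF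
  have hF1 : 1 ≤ F := by rw [hF]; exact_mod_cast hFpos
  have hh1 : 1 ≤ h := by
    rcases Nat.eq_zero_or_pos h with h0 | h0
    · exfalso
      rw [h0, mul_zero] at hgh
      have := Nat.mul_pos (by omega : 0 < a) hFpos
      omega
    · exact h0
  have hhR : (1 : ℝ) ≤ h := by exact_mod_cast hh1
  have hghR : (a : ℝ) * F = g * h := by rw [hF]; exact_mod_cast hgh
  have hc0 : 0 < c (d + 2) := by rw [hc]; exact_mod_cast ha
  set c' := ∑ k ∈ range (d + 2), |(c k : ℝ)| with hc'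
  have hc'0 : 0 ≤ c' := sum_nonneg fun _ _ => abs_nonneg _
  -- the parameters of the potential
  set w : ℝ := h * ((b : ℝ) - 1) ^ (d + 2) with hw
  have hw0 : 0 < w := by positivity
  have hbL : (2 : ℝ) ≤ (b : ℝ) ^ L := by
    calc (2 : ℝ) ≤ b := hb2
      _ = (b : ℝ) ^ 1 := (pow_one _).symm
      _ ≤ (b : ℝ) ^ L := pow_le_pow_right₀ (by linarith) hL1
  set η : ℝ := 1 / (b : ℝ) ^ L with hη
  have hη0 : 0 < η := by positivity
  have hη2 : η ≤ 1 / 2 := one_div_le_one_div_of_le (by norm_num) hbL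
  have hwD : w / ((b : ℝ) - 1) = h * ((b : ℝ) - 1) ^ (d + 1) := by
    rw [hw, pow_succ _ (d + 1)]
    field_simp
  have hw1 : (1 : ℝ) ≤ w / ((b : ℝ) - 1) := by
    rw [hwD]
    exact one_le_mul_of_one_le_of_one_le hhR (one_le_pow₀ (by linarith))
  have hw2 : 1 ≤ w := by
    have h1 : (1 : ℝ) ≤ ((b : ℝ) - 1) ^ (d + 2) := one_le_pow₀ (by linarith)
    rw [hw]
    exact one_le_mul_of_one_le_of_one_le hhR h1
  have hwL : w ≤ ((b : ℝ) - 1) * ((b : ℝ) ^ L * (1 - η)) := by
    have h1 : h * (b - 1) ^ (d + 1) + 1 ≤ b ^ L := hL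
    have h2 : (((h * (b - 1) ^ (d + 1) + 1 : ℕ)) : ℝ) ≤ ((b ^ L : ℕ) : ℝ) := by exact_mod_cast h1
    rw [Nat.cast_add, Nat.cast_mul, Nat.cast_pow, Nat.cast_sub (by omega)] at h2
    push_cast at h2
    have h3 : (b : ℝ) ^ L * (1 - η) = (b : ℝ) ^ L - 1 := by
      rw [hη]; field_simp
    rw [h3]
    have h4 : w = ((b : ℝ) - 1) * (w / ((b : ℝ) - 1)) := by field_simp
    rw [h4, hwD]
    exact mul_le_mul_of_nonneg_left (by linarith) hb1.le
  -- the step
  set T : ℕ → ℝ := fun m => a * TT b y (d + 2) m / g with hT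
  have hT0 : ∀ m, 0 ≤ T m := fun m => by
    have := TT_nonneg hb hy0 hy1 (d + 2) m
    simp only [hT]
    positivity
  have hstep : ∀ m, (b : ℝ) * T m - w * kk b y d (m + 1) ≤ T (m + 1) := by
    intro m
    simp only [hT]
    rw [TT_succ]
    have h1 : ((rr (xx b y) (d + 2) (m + 1) : ℕ) : ℝ) ≤
        ((b : ℝ) - 1) ^ (d + 2) * (F * kk b y d (m + 1)) := by
      have h2 := (rr_le (xx b y) (ee b y) (b - 1) (xx_le_ee hb) (d + 2) (m + 1)).trans
        (Nat.mul_le_mul_left _ (le_kk d (m + 1)))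
      have h3 : ((rr (xx b y) (d + 2) (m + 1) : ℕ) : ℝ) ≤
          (((b - 1) ^ (d + 2) * ((d + 2).factorial * kk b y d (m + 1)) : ℕ) : ℝ) := by
        exact_mod_cast h2
      rw [Nat.cast_mul, Nat.cast_pow, Nat.cast_sub (by omega), Nat.cast_mul] at h3
      push_cast at h3
      exact h3
    have h2 : (a : ℝ) * ((rr (xx b y) (d + 2) (m + 1) : ℕ) : ℝ) / g ≤ w * kk b y d (m + 1) := by
      rw [div_le_iff₀ (by linarith), hw]
      calc (a : ℝ) * ((rr (xx b y) (d + 2) (m + 1) : ℕ) : ℝ) ≤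
            a * (((b : ℝ) - 1) ^ (d + 2) * (F * kk b y d (m + 1))) :=
            mul_le_mul_of_nonneg_left h1 (by linarith)
        _ = (a * F) * (((b : ℝ) - 1) ^ (d + 2) * kk b y d (m + 1)) := by ring
        _ = (g * h) * (((b : ℝ) - 1) ^ (d + 2) * kk b y d (m + 1)) := by rw [hghR]
        _ = _ := by ring
    have h3 : (a : ℝ) * (b * TT b y (d + 2) m - ((rr (xx b y) (d + 2) (m + 1) : ℕ) : ℝ)) / g =
        b * (a * TT b y (d + 2) m / g) - a * ((rr (xx b y) (d + 2) (m + 1) : ℕ) : ℝ) / g := by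
      ring
    rw [h3]
    linarith
  -- the exceptional places
  set η' : ℝ := η / (c' + 1) with hη'
  have hη'0 : 0 < η' := by positivity
  have hη'c : c' * η' ≤ η := by
    rw [hη', mul_div_assoc', div_le_iff₀ (by linarith)]
    nlinarith
  have hbad : ∀ m, T m < 1 - η → m < v ∨ (v ≤ m ∧ ∃ j ∈ range (v + 1), Dirty b y d c' (m - j)) ∨
      η' ≤ TT b y (d + 1) m := by
    intro m hm
    by_contra hcon
    push Not at hcon
    obtain ⟨h1, h2, h3⟩ := hcon
    have h4 := good_ge hb hy0 hy1 d c hP hc0 g v hg0 hg1 (by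
      rw [hc]
      exact ⟨h, by exact_mod_cast hgh⟩) η' m h1 (fun j hj => h2 h1 j (mem_range.2 (by omega))) h3
    rw [hc, ← hc'] at h4
    push_cast at h4
    simp only [hT] at hm
    rw [div_lt_iff₀ (by linarith)] at hm
    have h5 : η ≤ η * g := le_mul_of_one_le_right hη0.le hgR
    linarith
  have hbadcard : ∀ n : ℕ, (((range n).filter (fun m => T m < 1 - η)).card : ℝ) ≤
      v + (v + 1) * (((range n).filter (Dirty b y d c')).card : ℝ) +
        (3 ^ (d + 1) + 1) / η' * (KK b y n : ℝ) ^ (d + 1) := by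
    intro n
    have hsub : (range n).filter (fun m => T m < 1 - η) ⊆
        (range v ∪ (range (v + 1)).biUnion fun j =>
          ((range n).filter (Dirty b y d c')).image (fun m => m + j)) ∪
          (range n).filter (fun m => η' ≤ TT b y (d + 1) m) := by
      intro m hm
      obtain ⟨hm1, hm2⟩ := mem_filter.1 hm
      rw [mem_union, mem_union]
      rcases hbad m hm2 with h1 | ⟨h1, j, hj, h2⟩ | h1
      · exact Or.inl (Or.inl (mem_range.2 h1))
      · refine Or.inl (Or.inr (mem_biUnion.2 ⟨j, hj, mem_image.2 ⟨m - j, ?_, ?_⟩⟩))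
        · exact mem_filter.2 ⟨mem_range.2 (by have := mem_range.1 hm1; omega), h2⟩
        · have := mem_range.1 hj
          omega
      · exact Or.inr (mem_filter.2 ⟨hm1, h1⟩)
    have h1 := (card_le_card hsub).trans ((card_union_le _ _).trans
      (Nat.add_le_add_right (card_union_le _ _) _))
    rw [card_range] at h1
    have h2 : ((range (v + 1)).biUnion fun j =>
          ((range n).filter (Dirty b y d c')).image (fun m => m + j)).card ≤
          (v + 1) * ((range n).filter (Dirty b y d c')).card := by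
      refine card_biUnion_le.trans ((sum_le_sum fun j _ => card_image_le).trans ?_)
      rw [sum_const, card_range, smul_eq_mul]
    have h3 : (((range n).filter (fun m => η' ≤ TT b y (d + 1) m)).card : ℝ) ≤
        (3 ^ (d + 1) + 1) / η' * (KK b y n : ℝ) ^ (d + 1) := by
      have h4 : (((range n).filter (fun m => η' ≤ TT b y (d + 1) m)).card : ℝ) * η' ≤
          ∑ m ∈ range n, TT b y (d + 1) m := by
        rw [← nsmul_eq_mul, ← sum_const]
        refine (sum_le_sum fun m hm => (mem_filter.1 hm).2).trans ?_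
        exact sum_le_sum_of_subset_of_nonneg (filter_subset _ _)
          fun m _ _ => TT_nonneg hb hy0 hy1 _ _
      have h5 := TT_sum hb hy0 hy1 (d + 1) n
      have h6 := TT_upper hb hy0 hy1 d n
      have h7 : (1 : ℝ) ≤ KK b y n := by exact_mod_cast KK_pos hy0 hy1 n
      have h8 : (KK b y n : ℝ) ^ d ≤ (KK b y n : ℝ) ^ (d + 1) :=
        pow_le_pow_right₀ h7 (Nat.le_succ d)
      have h9 : 0 ≤ ∑ m ∈ range n, TT b y (d + 1) m :=
        sum_nonneg fun m _ => TT_nonneg hb hy0 hy1 _ _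
      have h10 : ∑ m ∈ range n, TT b y (d + 1) m ≤ (3 ^ (d + 1) + 1) * (KK b y n : ℝ) ^ (d + 1) := by
        have e1 : (3 : ℝ) ^ (d + 1) * (KK b y n : ℝ) ^ d ≤
            3 ^ (d + 1) * (KK b y n : ℝ) ^ (d + 1) :=
          mul_le_mul_of_nonneg_left h8 (by positivity)
        have e2 : ∑ m ∈ range n, TT b y (d + 1) m ≤
            ((b : ℝ) - 1) * ∑ m ∈ range n, TT b y (d + 1) m :=
          le_mul_of_one_le_left h9 (by linarith)
        linarith
      rw [div_mul_eq_mul_div, le_div_iff₀ hη'0]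
      exact h4.trans h10
    have h4 : (((range n).filter (fun m => T m < 1 - η)).card : ℝ) ≤
        v + (v + 1) * (((range n).filter (Dirty b y d c')).card : ℝ) +
          (((range n).filter (fun m => η' ≤ TT b y (d + 1) m)).card : ℝ) := by
      have h5 : ((range n).filter (fun m => T m < 1 - η)).card ≤
          v + (v + 1) * ((range n).filter (Dirty b y d c')).card +
            ((range n).filter (fun m => η' ≤ TT b y (d + 1) m)).card := by omega
      exact_mod_cast h5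
    linarith
  -- the final inequality
  have hKf1 : ∀ n, (1 : ℝ) ≤ (cnt b y n : ℝ) + 1 := fun n => by
    have : (0 : ℝ) ≤ cnt b y n := Nat.cast_nonneg _
    linarith
  have hmain := asym d (fun n => (cnt b y n : ℝ) + 1) hKf1 (F / L) ?_ ε hε
  · obtain ⟨n0, h0⟩ := hmain
    refine ⟨n0, fun n hn => ?_⟩
    have h1 := h0 n hn
    simp only [add_sub_cancel_right] at h1
    exact h1
  intro δ hδ
  set δ1 : ℝ := δ * L / (F * (v + 1)) with hδ1
  have hδ10 : 0 < δ1 := by positivity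
  obtain ⟨C, hC, hCn⟩ := dirty_count Pool.Agent.H726R3.FactDvd.factStmt hb hy0 hy1 halg hirr d c'
    δ1 hδ10
  set β : ℝ := ((b : ℝ) - 1) ^ (d + 1) with hβ
  have hβ1 : 1 ≤ β := one_le_pow₀ (by linarith)
  set Ct : ℝ := F + F * (L + a * 3 ^ (d + 2) * β + v + (v + 1) * C * β +
    (3 ^ (d + 1) + 1) / η' * β) with hCt
  refine ⟨Ct, by positivity, fun n => ?_⟩
  set Kn : ℝ := (cnt b y n : ℝ) + 1 with hKn
  have hK1 : 1 ≤ Kn := hKf1 n
  have hℓ : 0 ≤ Real.log ((n : ℝ) + 1) := Real.log_nonneg (by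
    have : (0 : ℝ) ≤ n := Nat.cast_nonneg _
    linarith)
  set ℓ := Real.log ((n : ℝ) + 1) with hℓdef
  have hn0 : (0 : ℝ) ≤ n := Nat.cast_nonneg _
  have hKK : (KK b y n : ℝ) ≤ ((b : ℝ) - 1) * Kn := by
    have h3 := KK_le_cnt1 hb y n
    have h4 : ((KK b y n : ℕ) : ℝ) ≤ (((b - 1) * (cnt b y n + 1) : ℕ) : ℝ) := by
      exact_mod_cast h3
    rw [Nat.cast_mul, Nat.cast_sub (by omega)] at h4
    push_cast at h4
    exact h4
  have hKKp : (KK b y n : ℝ) ^ (d + 1) ≤ β * Kn ^ (d + 1) := by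
    rw [hβ, ← mul_pow]
    exact pow_le_pow_left₀ (Nat.cast_nonneg _) hKK _
  set Kp : ℝ := Kn ^ (d + 1) with hKp
  have hKp1 : 1 ≤ Kp := one_le_pow₀ hK1
  have hpot := pot_sum (b := (b : ℝ)) (θ := 1 - η) (w := w) (L := L) hb2 (by linarith) hw0
    (by linarith) hL1 hwL (T := T) (k := fun m => kk b y d m) hstep n
  have hpotR : (n : ℝ) ≤ L * ((∑ m ∈ range n, kk b y d (m + 1) : ℕ) : ℝ) +
      HH (b : ℝ) (1 - η) w L (T n) +
      (((range n).filter (fun m => T m < 1 - η)).card : ℝ) := by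
    exact_mod_cast hpot
  have hH := HH_le (b := (b : ℝ)) (θ := 1 - η) (w := w) (L := L) hb2 hw0 (hT0 n)
  have hTn : T n / w ≤ a * 3 ^ (d + 2) * (β * Kp) := by
    have h1 : T n / w ≤ T n := div_le_self (hT0 n) hw2
    have h2 : T n ≤ a * TT b y (d + 2) n := by
      simp only [hT]
      exact div_le_self (mul_nonneg (by linarith) (TT_nonneg hb hy0 hy1 _ _)) hgR
    have h3 := TT_upper hb hy0 hy1 (d + 1) n
    have h4 : TT b y (d + 2) n ≤ 3 ^ (d + 2) * (β * Kp) :=
      h3.trans (mul_le_mul_of_nonneg_left hKKp (by positivity))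
    calc T n / w ≤ a * TT b y (d + 2) n := h1.trans h2
      _ ≤ a * (3 ^ (d + 2) * (β * Kp)) := mul_le_mul_of_nonneg_left h4 (by linarith)
      _ = _ := by ring
  have hksum : F * ((∑ m ∈ range n, kk b y d (m + 1) : ℕ) : ℝ) ≤ Kn ^ (d + 2) + F * Kp := by
    have h1 := kk_sum (b := b) (y := y) d n
    have h2 : ∑ m ∈ range n, kk b y d (m + 1) ≤ ∑ m ∈ range (n + 1), kk b y d m := by
      rw [sum_range_succ' _ n]; exact Nat.le_add_right _ _
    have h3 : (d + 2).factorial * ∑ m ∈ range n, kk b y d (m + 1) ≤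
        (cnt b y n + 1) ^ (d + 2) + (d + 2).factorial * (cnt b y n + 1) ^ (d + 1) :=
      (Nat.mul_le_mul_left _ h2).trans h1
    have h4 : (((d + 2).factorial * ∑ m ∈ range n, kk b y d (m + 1) : ℕ) : ℝ) ≤
        (((cnt b y n + 1) ^ (d + 2) + (d + 2).factorial * (cnt b y n + 1) ^ (d + 1) : ℕ) : ℝ) := by
      exact_mod_cast h3
    push_cast at h4
    push_cast
    exact h4
  have hbadn := hbadcard n
  have hdirty := hCn n
  rw [← hℓdef] at hdirty
  -- assemble
  have e1 : (v + 1 : ℝ) * (((range n).filter (Dirty b y d c')).card : ℝ) ≤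
      (v + 1) * (C * (1 + ℓ) * (β * Kp) + δ1 * n) := by
    refine mul_le_mul_of_nonneg_left (hdirty.trans ?_) (by positivity)
    have : C * (1 + ℓ) * (KK b y n : ℝ) ^ (d + 1) ≤ C * (1 + ℓ) * (β * Kp) :=
      mul_le_mul_of_nonneg_left hKKp (by positivity)
    linarith
  have e2 : (3 ^ (d + 1) + 1) / η' * (KK b y n : ℝ) ^ (d + 1) ≤
      (3 ^ (d + 1) + 1) / η' * (β * Kp) := mul_le_mul_of_nonneg_left hKKp (by positivity)
  have e3 : F * n ≤ L * (Kn ^ (d + 2) + F * Kp) + F * ((L + a * 3 ^ (d + 2) * (β * Kp)) +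
      (v + (v + 1) * (C * (1 + ℓ) * (β * Kp) + δ1 * n) +
        (3 ^ (d + 1) + 1) / η' * (β * Kp))) := by
    have h1 := mul_le_mul_of_nonneg_left hpotR (by linarith : (0 : ℝ) ≤ F)
    have h2 := mul_le_mul_of_nonneg_left hksum (by linarith : (0 : ℝ) ≤ L)
    have h3 : (HH (b : ℝ) (1 - η) w L (T n) : ℝ) +
        (((range n).filter (fun m => T m < 1 - η)).card : ℝ) ≤
        (L + a * 3 ^ (d + 2) * (β * Kp)) + (v + (v + 1) * (C * (1 + ℓ) * (β * Kp) + δ1 * n) +
        (3 ^ (d + 1) + 1) / η' * (β * Kp)) := by linarith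
    have h4 := mul_le_mul_of_nonneg_left h3 (by linarith : (0 : ℝ) ≤ F)
    have h5 : F * (L * ((∑ m ∈ range n, kk b y d (m + 1) : ℕ) : ℝ)) =
      L * (F * ((∑ m ∈ range n, kk b y d (m + 1) : ℕ) : ℝ)) := by ring
    linarith
  have e4 : F * ((v + 1) * (δ1 * n)) = L * (δ * n) := by
    rw [hδ1]
    field_simp
  -- all error terms
  have e5 : L * (F * Kp) + F * ((L + a * 3 ^ (d + 2) * (β * Kp)) +
      (v + (v + 1) * (C * (1 + ℓ) * (β * Kp)) + (3 ^ (d + 1) + 1) / η' * (β * Kp))) ≤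
      L * (Ct * (1 + ℓ) * Kp) := by
    have q1 : 1 ≤ (1 + ℓ) * Kp := one_le_mul_of_one_le_of_one_le (by linarith) hKp1
    have q2 : Kp ≤ (1 + ℓ) * Kp := le_mul_of_one_le_left (by linarith) (by linarith)
    set R : ℝ := (1 + ℓ) * Kp with hR
    have q3 : L * (Ct * (1 + ℓ) * Kp) = L * (F * R) + L * (F * ((L + a * 3 ^ (d + 2) * β + v +
        (v + 1) * C * β + (3 ^ (d + 1) + 1) / η' * β) * R)) := by rw [hCt, hR]; ring
    rw [q3]
    refine add_le_add ?_ ?_
    · gcongr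
    · have q4 : (L + a * 3 ^ (d + 2) * (β * Kp)) + (v + (v + 1) * (C * (1 + ℓ) * (β * Kp)) +
          (3 ^ (d + 1) + 1) / η' * (β * Kp)) ≤ (L + a * 3 ^ (d + 2) * β + v +
        (v + 1) * C * β + (3 ^ (d + 1) + 1) / η' * β) * R := by
        have r1 : (L : ℝ) ≤ L * R := le_mul_of_one_le_right (by linarith) q1
        have r2 : (a : ℝ) * 3 ^ (d + 2) * (β * Kp) ≤ a * 3 ^ (d + 2) * β * R := by
          have : (a : ℝ) * 3 ^ (d + 2) * β * Kp ≤ a * 3 ^ (d + 2) * β * R := by gcongr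
          linarith
        have r3 : (v : ℝ) ≤ v * R := le_mul_of_one_le_right (Nat.cast_nonneg _) q1
        have r4 : ((v : ℝ) + 1) * (C * (1 + ℓ) * (β * Kp)) = (v + 1) * C * β * R := by
          rw [hR]; ring
        have r5 : (3 ^ (d + 1) + 1) / η' * (β * Kp) ≤ (3 ^ (d + 1) + 1) / η' * β * R := by
          have : (3 ^ (d + 1) + 1) / η' * β * Kp ≤ (3 ^ (d + 1) + 1) / η' * β * R := by gcongr
          linarith
        have r6 : (L + a * 3 ^ (d + 2) * β + v + (v + 1) * C * β +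
            (3 ^ (d + 1) + 1) / η' * β) * R = L * R + a * 3 ^ (d + 2) * β * R + v * R +
            (v + 1) * C * β * R + (3 ^ (d + 1) + 1) / η' * β * R := by ring
        rw [r6]
        linarith
      have q5 := mul_le_mul_of_nonneg_left q4 (by linarith : (0 : ℝ) ≤ F)
      have q6 : 0 ≤ F * ((L + a * 3 ^ (d + 2) * β + v +
        (v + 1) * C * β + (3 ^ (d + 1) + 1) / η' * β) * R) := by positivity
      exact q5.trans (le_mul_of_one_le_left q6 hLR)
  have e6 : F * n ≤ L * (Kn ^ (d + 2) + Ct * (1 + ℓ) * Kp + δ * n) := by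
    have h1 : F * ((L + a * 3 ^ (d + 2) * (β * Kp)) +
      (v + (v + 1) * (C * (1 + ℓ) * (β * Kp) + δ1 * n) +
        (3 ^ (d + 1) + 1) / η' * (β * Kp))) = F * ((L + a * 3 ^ (d + 2) * (β * Kp)) +
      (v + (v + 1) * (C * (1 + ℓ) * (β * Kp)) + (3 ^ (d + 1) + 1) / η' * (β * Kp))) +
      F * ((v + 1) * (δ1 * n)) := by ring
    rw [h1, e4] at e3
    linarith
  have e7 : F / L * n ≤ Kn ^ (d + 2) + Ct * (1 + ℓ) * Kp + δ * n := by
    rw [div_mul_eq_mul_div, div_le_iff₀ (by linarith)]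
    linarith
  linarith

end

end Pool.Agent.H90.PR
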