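import Pool.Agent.H90.PR.Deg

/-!
# Windows of digits of algebraic numbers of degree `D`
-/

set_option autoImplicit false
set_option linter.unusedSectionVars false

open Finset Polynomial

namespace Pool.Agent.H90.PR

open Pool.Agent.H394R2.Ones Pool.Agent.H820R3.DG

/-- the relation for the fractional part -/
lemma toY (P : ℤ[X]) (hlead : 0 < P.leadingCoeff) {ξ : ℝ} (hP : aeval ξ P = 0) :
    ∃ c : ℕ → ℤ, c P.natDegree = P.leadingCoeff ∧
      ∑ k ∈ range (P.natDegree + 1), (c k : ℝ) * (1 + Int.fract ξ) ^ k = 0 := by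
  set y : ℝ := Int.fract ξ with hy
  set r : ℤ := ⌊ξ⌋ - 1 with hr
  set Q : ℤ[X] := P.comp (X + C r) with hQ
  have hQdeg : Q.natDegree = P.natDegree := by
    rw [hQ, natDegree_comp, natDegree_X_add_C, mul_one]
  have hQlead : Q.leadingCoeff = P.leadingCoeff := by
    rw [hQ, leadingCoeff_comp (by rw [natDegree_X_add_C]; norm_num), leadingCoeff_X_add_C,
      one_pow, mul_one]
  have hQ0 : aeval (1 + y) Q = 0 := by
    rw [hQ, aeval_comp]
    have : aeval (1 + y) (X + C r : ℤ[X]) = ξ := by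
      have h1 : (⌊ξ⌋ : ℝ) + y = ξ := Int.floor_add_fract ξ
      have h2 : aeval (1 + y) (X + C r : ℤ[X]) = (1 + y) + (r : ℝ) := by
        rw [map_add, aeval_X, aeval_C]; rfl
      rw [h2, hr]
      push_cast
      linarith
    rw [this]; exact hP
  have hQsum : ∑ k ∈ range (P.natDegree + 1), (Q.coeff k : ℝ) * (1 + y) ^ k = 0 := by
    rw [aeval_eq_sum_range, hQdeg] at hQ0
    simpa [zsmul_eq_mul] using hQ0
  refine ⟨fun k => Q.coeff k, ?_, hQsum⟩
  rw [← hQlead]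
  unfold leadingCoeff
  rw [hQdeg]

/-- one residue class of windows -/
lemma one_class {b : ℕ} (hb : 2 ≤ b) (P : ℤ[X]) (hD : 2 ≤ P.natDegree)
    (hlead : 0 < P.leadingCoeff) {ξ : ℝ} (hirr : Irrational ξ) (hP : aeval ξ P = 0)
    (g v h : ℕ) (hg1 : g ∣ b ^ v)
    (hgh : P.leadingCoeff.natAbs * P.natDegree.factorial = g * h) (L : ℕ) (hL1 : 1 ≤ L)
    (hL : h * (b - 1) ^ (P.natDegree - 1) < b ^ L) (ε : ℝ) (hε : 0 < ε) :
    ∃ n0 : ℕ, ∀ n : ℕ, n0 ≤ n →
      ((P.natDegree.factorial : ℝ) / L - ε) * n ≤ (cnt b (Int.fract ξ) n : ℝ) ^ P.natDegree := by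
  obtain ⟨d, hd⟩ : ∃ d, P.natDegree = d + 2 := ⟨P.natDegree - 2, by omega⟩
  obtain ⟨c, hc1, hc2⟩ := toY P hlead hP
  have hξalg : IsAlgebraic ℚ ξ := by
    have h1 : IsAlgebraic ℤ ξ := ⟨P, by
      intro h
      rw [h] at hlead
      simp at hlead, hP⟩
    exact (IsFractionRing.isAlgebraic_iff ℤ ℚ ℝ).mp h1
  obtain ⟨hy0, hy1, hyirr⟩ := fract_facts hirr
  have hb0 : 0 < b := by omega
  have hg0 : 1 ≤ g := Nat.pos_of_dvd_of_pos hg1 (Nat.pow_pos hb0)
  rw [hd] at hc1 hc2 hgh hL ⊢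
  have ha : 1 ≤ P.leadingCoeff.natAbs := by omega
  have h1 := degY hb hy0 hy1 (fract_alg hξalg) hyirr d c hc2 P.leadingCoeff.natAbs ha (by
    rw [hc1]; omega) g v h hg0 hg1 hgh L hL1 (by
    rw [show d + 2 - 1 = d + 1 by omega] at hL
    exact hL) ε hε
  exact h1

/-- windows with a nonzero digit -/
theorem win_zero {b : ℕ} (hb : 2 ≤ b) (P : ℤ[X]) (hD : 2 ≤ P.natDegree)
    (hlead : 0 < P.leadingCoeff) {ξ : ℝ} (hirr : Irrational ξ) (hP : aeval ξ P = 0)
    (g v h : ℕ) (hg1 : g ∣ b ^ v)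
    (hgh : P.leadingCoeff.natAbs * P.natDegree.factorial = g * h) (t : ℕ) (ht : 1 ≤ t)
    (L : ℕ) (hL1 : 1 ≤ L)
    (hL : h * (b ^ t - 1) ^ (P.natDegree - 1) < b ^ (t * L)) (ε : ℝ) (hε : 0 < ε) :
    ∃ n0 : ℕ, ∀ n : ℕ, n0 ≤ n →
      (1 - ε) * ((P.natDegree.factorial : ℝ) * ((t : ℝ) ^ (P.natDegree - 1) * n)) ≤
        L * (wns b 0 ξ t n : ℝ) ^ P.natDegree := by
  have hbt : 2 ≤ b ^ t := by
    calc 2 ≤ b := hb
      _ = b ^ 1 := (pow_one b).symm
      _ ≤ b ^ t := Nat.pow_le_pow_right (by omega) ht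
  set D := P.natDegree with hDd
  have htR : (1 : ℝ) ≤ t := by exact_mod_cast ht
  have hLR : (1 : ℝ) ≤ L := by exact_mod_cast hL1
  set F : ℝ := (D.factorial : ℝ) with hF
  have hF1 : 1 ≤ F := by rw [hF]; exact_mod_cast Nat.factorial_pos D
  have hone : ∀ s : ℕ, ∃ n0 : ℕ, ∀ n : ℕ, n0 ≤ n →
      (F / L - ε / 2 * (F / L)) * n ≤ (cnt (b ^ t) (Int.fract ((b : ℝ) ^ s * ξ)) n : ℝ) ^ D := by
    intro s
    have hirr' : Irrational ((b : ℝ) ^ s * ξ) := by
      have h1 : Irrational (((b ^ s : ℕ) : ℝ) * ξ) := hirr.natCast_mul (by positivity)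
      push_cast at h1
      exact h1
    have hdeg : (P.scaleRoots ((b : ℤ) ^ s)).natDegree = D := natDegree_scaleRoots _ _
    have hlc : (P.scaleRoots ((b : ℤ) ^ s)).leadingCoeff = P.leadingCoeff := by
      unfold leadingCoeff
      rw [natDegree_scaleRoots, coeff_scaleRoots_natDegree]
      rfl
    have h1 := one_class (b := b ^ t) hbt (P.scaleRoots ((b : ℤ) ^ s)) (by rw [hdeg]; exact hD)
      (by rw [hlc]; exact hlead) hirr' (by
        have h2 := scaleRoots_aeval_eq_zero (r := (b : ℤ) ^ s) hP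
        simpa using h2) g v h (by
        rw [← pow_mul]
        exact hg1.trans (pow_dvd_pow b (by nlinarith))) (by rw [hlc, hdeg]; exact hgh) L hL1 (by
        rw [hdeg, ← pow_mul]; exact hL) (ε / 2 * (F / L)) (by positivity)
    rw [hdeg] at h1
    exact h1
  choose N hN using hone
  set N0 : ℕ := (range t).sup N with hN0
  obtain ⟨n2, hn2⟩ := exists_nat_ge (4 * t / ε)
  refine ⟨max (t * (N0 + 2)) n2, fun n hn => ?_⟩
  have hn1' : t * (N0 + 2) ≤ n := (le_max_left _ _).trans hn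
  have hn2' : (4 * t / ε : ℝ) ≤ n := hn2.trans (by exact_mod_cast (le_max_right _ _).trans hn)
  have hnR : (0 : ℝ) ≤ n := Nat.cast_nonneg _
  rcases le_or_gt 1 ε with hε1 | hε1
  · have h1 : (1 - ε) * (F * ((t : ℝ) ^ (D - 1) * n)) ≤ 0 :=
      mul_nonpos_of_nonpos_of_nonneg (by linarith) (by positivity)
    have h2 : 0 ≤ (L : ℝ) * (wns b 0 ξ t n : ℝ) ^ D := by positivity
    linarith
  set M : ℕ := n / t - 1 with hM
  have hdiv : N0 + 2 ≤ n / t := by
    rw [Nat.le_div_iff_mul_le (by omega), mul_comm]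
    exact hn1'
  have hMt : t * M + t = t * (n / t) := by
    obtain ⟨a, ha⟩ : ∃ a, n / t = a + 1 := ⟨n / t - 1, by omega⟩
    rw [hM, ha, Nat.add_sub_cancel]
    ring
  have hMn : t * M + t ≤ n := by
    have h1 : t * (n / t) ≤ n := Nat.mul_div_le _ _
    omega
  have hMn2 : n ≤ t * M + 2 * t := by
    have h1 : n < t * (n / t) + t := Nat.lt_mul_div_succ _ (by omega)
    omega
  have hMN : N0 ≤ M := by omega
  -- the least count
  obtain ⟨s0, hs0, hmin⟩ := exists_min_image (range t)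
    (fun s => cnt (b ^ t) (Int.fract ((b : ℝ) ^ s * ξ)) M) ⟨0, mem_range.2 (by omega)⟩
  set m0 := cnt (b ^ t) (Int.fract ((b : ℝ) ^ s0 * ξ)) M with hm0
  have h1 : t * m0 ≤ wns b 0 ξ t n := by
    refine le_trans ?_ (wns_ge hb ht ξ M n hMn)
    calc t * m0 = ∑ _s ∈ range t, m0 := by rw [sum_const, card_range, smul_eq_mul]
      _ ≤ _ := sum_le_sum fun s hs => hmin s hs
  have h1' : (t : ℝ) * m0 ≤ wns b 0 ξ t n := by exact_mod_cast h1
  have h2 := hN s0 M (le_trans (le_sup (f := N) hs0) hMN)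
  rw [← hm0] at h2
  have h3 : (t : ℝ) ^ D * (m0 : ℝ) ^ D ≤ (wns b 0 ξ t n : ℝ) ^ D := by
    rw [← mul_pow]
    exact pow_le_pow_left₀ (by positivity) h1' _
  have h4 : (1 - ε) * (F * ((t : ℝ) ^ (D - 1) * n)) ≤
      L * ((t : ℝ) ^ D * ((F / L - ε / 2 * (F / L)) * M)) := by
    obtain ⟨e, he⟩ : ∃ e, D = e + 1 := ⟨D - 1, by omega⟩
    have h5 : (n : ℝ) ≤ t * M + 2 * t := by exact_mod_cast hMn2
    have h6 : (1 - ε / 2) * (n : ℝ) ≤ t * M := by
      rw [div_le_iff₀ hε] at hn2'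
      linarith
    have h7 : (1 - ε) * (n : ℝ) ≤ (1 - ε / 2) * (t * M) := by
      have h8 : (1 - ε / 2) * ((1 - ε / 2) * (n : ℝ)) ≤ (1 - ε / 2) * (t * M) :=
        mul_le_mul_of_nonneg_left h6 (by linarith)
      have h9 : (1 - ε) * (n : ℝ) ≤ (1 - ε / 2) * ((1 - ε / 2) * (n : ℝ)) := by
        nlinarith [mul_nonneg (mul_nonneg hε.le hε.le) hnR]
      linarith
    have h10 : L * ((t : ℝ) ^ D * ((F / L - ε / 2 * (F / L)) * M)) =
        F * ((t : ℝ) ^ (D - 1) * ((1 - ε / 2) * (t * M))) := by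
      rw [he, Nat.add_sub_cancel, pow_succ]
      field_simp
    rw [h10]
    calc (1 - ε) * (F * ((t : ℝ) ^ (D - 1) * n)) = F * ((t : ℝ) ^ (D - 1) * ((1 - ε) * n)) := by
          ring
      _ ≤ _ := by gcongr
  refine h4.trans ?_
  refine mul_le_mul_of_nonneg_left ?_ (by linarith)
  refine le_trans ?_ h3
  exact mul_le_mul_of_nonneg_left h2 (by positivity)

/-- windows with a digit different from `0` or from `b - 1` -/
theorem win_deg {b : ℕ} (hb : 2 ≤ b) (P : ℤ[X]) (hD : 2 ≤ P.natDegree)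
    {ξ : ℝ} (hirr : Irrational ξ) (hP : aeval ξ P = 0)
    (g v h : ℕ) (hg1 : g ∣ b ^ v)
    (hgh : P.leadingCoeff.natAbs * P.natDegree.factorial = g * h) (t : ℕ) (ht : 1 ≤ t)
    (L : ℕ) (hL1 : 1 ≤ L)
    (hL : h * (b ^ t - 1) ^ (P.natDegree - 1) < b ^ (t * L)) (e : ℤ) (he : e = 0 ∨ e = b - 1)
    (ε : ℝ) (hε : 0 < ε) :
    ∃ n0 : ℕ, ∀ n : ℕ, n0 ≤ n →
      (1 - ε) * ((P.natDegree.factorial : ℝ) * ((t : ℝ) ^ (P.natDegree - 1) * n)) ≤
        L * (wns b e ξ t n : ℝ) ^ P.natDegree := by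
  have hP0 : P ≠ 0 := by rintro rfl; simp at hD
  have hl0 : P.leadingCoeff ≠ 0 := leadingCoeff_ne_zero.mpr hP0
  have key : ∀ (η : ℝ), Irrational η → (∃ R : ℤ[X], R.natDegree = P.natDegree ∧
      R.leadingCoeff.natAbs = P.leadingCoeff.natAbs ∧ aeval η R = 0) →
      ∃ n0 : ℕ, ∀ n : ℕ, n0 ≤ n →
      (1 - ε) * ((P.natDegree.factorial : ℝ) * ((t : ℝ) ^ (P.natDegree - 1) * n)) ≤
        L * (wns b 0 η t n : ℝ) ^ P.natDegree := by
    intro η hη ⟨R, hR1, hR2, hR3⟩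
    rcases lt_or_gt_of_ne (show R.leadingCoeff ≠ 0 by
      intro h0; rw [h0] at hR2; exact hl0 (Int.natAbs_eq_zero.1 hR2.symm)) with h0 | h0
    · have h1 : (-R).leadingCoeff.natAbs = P.leadingCoeff.natAbs := by
        rw [leadingCoeff_neg, Int.natAbs_neg, hR2]
      have h2 : (-R).natDegree = P.natDegree := by rw [natDegree_neg, hR1]
      have h3 := win_zero hb (-R) (by rw [h2]; exact hD)
        (by rw [leadingCoeff_neg]; linarith)
        hη (by rw [map_neg, hR3, neg_zero]) g v h hg1 (by rw [h1, h2]; exact hgh) t ht L hL1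
        (by rw [h2]; exact hL) ε hε
      rw [h2] at h3
      exact h3
    · have h3 := win_zero hb R (by rw [hR1]; exact hD) h0
        hη hR3 g v h hg1 (by rw [hR2, hR1]; exact hgh) t ht L hL1
        (by rw [hR1]; exact hL) ε hε
      rw [hR1] at h3
      exact h3
  rcases he with rfl | rfl
  · exact key ξ hirr ⟨P, rfl, rfl, hP⟩
  · obtain ⟨n0, h0⟩ := key (-ξ) hirr.neg ⟨P.comp (-X), by
        rw [natDegree_comp, natDegree_neg, natDegree_X, mul_one], by
        rw [leadingCoeff_comp (by rw [natDegree_neg, natDegree_X]; norm_num), leadingCoeff_neg,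
          leadingCoeff_X, Int.natAbs_mul, Int.natAbs_pow, Int.natAbs_neg, Int.natAbs_one, one_pow,
          mul_one], by
        rw [aeval_comp]; simpa using hP⟩
    refine ⟨n0, fun n hn => ?_⟩
    have h1 := h0 n hn
    rw [wns_neg hb hirr] at h1
    exact h1

end Pool.Agent.H90.PR
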